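import Pool.Agent.H82.RD.Defs

/-!
The k-clique formula of a random graph, linear exponent (/team-store/H11_RL.md): definitions.

`L` rows, block `V j` of row `j`, a point is a function `x : Fin L → ν` with `x j ∈ V j`.
-/

set_option autoImplicit false
set_option linter.unusedSectionVars false

open Finset

namespace Pool.Agent.H49.RD

open Pool.Agent.H49.RG (Cl Ad Eqn nbr cell pts mem_cell mem_nbr mem_pts cell_sub cell_mono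
  cell_anti cell_cell cell_eq)
open Pool.Agent.H82.RD (HH)

variable {ν ω : Type} [Fintype ν] [DecidableEq ν] [DecidableEq ω] {L : ℕ}

/-- A player: the graph, the blocks of the rows, the letters of the other players. -/
abbrev Pl (ν : Type) (L : ℕ) := Pool.Agent.H49.RG.Pl ν L

/-- The numbers. `n`: size of the blocks; `w`, `f`: at most `w` outside letters and `f` fixed rows;
`s`: size of the sets in the properties of the graph; `r`: earlier lines used by a line; `No`: number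
of letters; `K1`: bound for (number of copies) * (number of positions), `KX`, `kl`: numbers of
copies; `μ`, `D`, `t0`: minimal violators; `cm`: classes of heavy sets; `te`: size in the edge
property; `β ^ 2 = n ^ b`, `l = n ^ lam`, `B1 = n ^ b1`, `l1 = n ^ lam1`, `Bp = n ^ b'`,
`h = n ^ δ`, `κ0` (new bad points), `Z.`: densities, `G.`: regularity, `e0 = n ^ ε`,
`Cb = n ^ (5/8)`. -/
structure Num where
  (n w f s r No K1 KX kl μ D t0 te cm : ℕ)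
  (p β l B1 l1 Bp h κ0 Z1 G1 Zg Gg ZS GS e0 Cb : ℝ)

/-- Conditions for the sum lemma with rate `B` and slack `l`. -/
structure Num.TOK (c : Num) (L : ℕ) (B l : ℝ) : Prop where
  l_ge : 1 ≤ l
  mB : 2 * (c.K1 : ℝ) * c.w * l ≤ B
  pay : c.h ^ 100 * (2 * (c.K1 : ℝ) * c.w * l) ^ c.μ ≤ B ^ c.μ
  t2 : (1 / c.p) ^ L * B * c.h ^ 1200 ≤ l ^ (2 * c.kl)

/-- The inequalities between the numbers. -/
structure Num.OK (c : Num) (R L : ℕ) : Prop where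
  R_pos : 1 ≤ R
  L_pos : 1 ≤ L
  n_pos : 0 < c.n
  f_pos : 1 ≤ c.f
  f_lt : c.f < L
  p_pos : 0 < c.p
  p_le : c.p ≤ 1
  β_ge : 16 ≤ c.β
  h_ge : 1 ≤ c.h
  κ0_pos : 0 < c.κ0
  Z1_ge : 1 ≤ c.Z1
  G1_ge : 8 ≤ c.G1
  w_eq : c.w = R * c.f
  μ_pos : 1 ≤ c.μ
  t0_pos : 1 ≤ c.t0
  kl_pos : 1 ≤ c.kl
  KX_pos : 1 ≤ c.KX
  D_ge : 320 * c.μ + 1 ≤ c.D
  DK : c.D * c.μ * c.t0 ≤ c.K1
  wK : c.KX + c.w ≤ c.K1
  klK : c.kl * c.w ≤ c.K1
  K_le : 8 * c.K1 ≤ L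
  s_ge : 4 * L + 2 * c.K1 ≤ c.s
  s_le : c.s ≤ 8 * L
  tB : c.TOK L (c.β ^ 2) c.l
  tB1 : c.TOK L c.B1 c.l1
  e0_ge : 8 * (c.w : ℝ) * L ≤ c.e0
  e0_one : 1 ≤ c.e0
  pt0 : (1 / c.p) ^ c.t0 ≤ c.h
  No_le : (c.No : ℝ) ≤ c.h ^ 450
  Cb_nn : 0 ≤ c.Cb
  FCb : 8 * c.Cb * (1 / c.p) ^ c.s * c.h ^ 100 ≤ c.n
  μwK : c.μ * c.w ≤ c.K1
  FQ : (2 ^ (c.w + c.t0 + 1) * c.e0 ^ c.t0) ^ (8 * c.μ * c.D) ≤ c.h
  FC1 : 64 * 2 ^ L * 4 ^ c.K1 ≤ c.h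
  FL : 2 ^ (100 * L) ≤ c.h
  FK : (2 * c.e0) ^ (120 * c.kl) * 2 ^ (2 * c.kl * c.w) * 64 ^ L ≤ c.h
  FW : 2 ^ (c.w * L) ≤ c.h ^ c.t0
  FG3 : c.G1 * 64 ^ c.w ≤ c.h ^ 3
  FT : 2 ^ (40 * L) * c.Z1 ≤ c.h ^ (4 * c.t0)
  Fcm : 8 ^ L * c.Z1 ≤ c.h ^ c.cm
  FBp : ((c.cm : ℝ) + 1) * c.B1 ≤ c.Bp
  B1_ge : 1 ≤ c.B1
  FTS : 2 ^ (L + c.w + 5) * (c.w : ℝ) ^ 2 * c.l * c.Bp ^ 2 ≤ c.β ^ 2
  kBp : (1 + 1 / c.Bp) ^ c.K1 ≤ 2
  kβ : (1 + 1 / c.β ^ 2) ^ c.K1 ≤ 2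
  FX : 2 ^ (40 * L) * c.Z1 ≤ c.Bp ^ c.KX
  FE : 100 * c.w * 2 ^ (40 * L) * c.β ^ (8 * c.w) ≤ c.κ0 * c.β ^ (2 * c.KX)
  FZ : 2 * c.β ^ (8 * c.w) ≤ c.κ0 * c.Z1
  FZg : 2 * c.β ^ (8 * c.w) * 8 ^ c.w ≤ c.κ0 * c.Zg
  FGg : 8 * 64 ^ c.w ≤ c.Gg
  FU : 8 ^ L * c.β ^ (8 * c.w) ≤ c.κ0 * c.h ^ (c.f + 1)
  FC : c.β ^ (8 * c.w) ≤ c.κ0 * (c.n * c.p ^ (4 * L)) ^ (L - c.f)
  F8 : 2 * (R : ℝ) * 16 ^ L * c.G1 * c.h * c.β ^ 2 ≤ c.n * c.p ^ (5 * L)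
  F9 : c.Zg * 8 ^ R ≤ c.ZS
  F9' : c.Gg * (8 * 8 ^ c.f) ^ R ≤ c.GS
  F10 : c.ZS * 2 ^ c.r * 8 ^ R ≤ c.Z1
  F10' : c.GS * 2 ^ c.r * (8 * 8 ^ c.f) ^ R ≤ c.G1
  F11 : c.te * c.G1 * c.h ≤ c.n * c.p ^ (4 * L)
  F12 : 2 * 8 ^ L ≤ c.ZS
  F12' : 2 * 64 ^ L ≤ c.GS

/-- The properties of the graph, for one player: degrees, characters, edges. -/
structure Pl.OK (P : Pl ν L) (c : Num) : Prop where
  dis : ∀ i j, i ≠ j → Disjoint (P.V i) (P.V j)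
  out : ∀ j, Disjoint P.Out (P.V j)
  card : ∀ j, (P.V j).card = c.n
  out_card : P.Out.card ≤ c.No
  lo : ∀ (j : Fin L) (S : Finset ν), S.card ≤ c.s → Disjoint S (P.V j) →
    (c.n : ℝ) * c.p ^ S.card / 8 ≤ (nbr P.G (P.V j) S).card
  up : ∀ (j : Fin L) (S : Finset ν), S.card ≤ c.s → Disjoint S (P.V j) →
    ((nbr P.G (P.V j) S).card : ℝ) ≤ 8 * (c.n * c.p ^ S.card)
  chr : ∀ (j : Fin L) (A D : Finset ν), Disjoint A (P.V j) → Disjoint D (P.V j) →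
    Disjoint A D → A.card + D.card ≤ c.s → ∀ m : ν → ℕ, (∀ d ∈ D, 1 ≤ m d ∧ m d ≤ 2 * c.K1) →
    (∃ d ∈ D, m d = 1) →
    |∑ v ∈ nbr P.G (P.V j) A, ∏ d ∈ D, HH P.G (1 / c.p) v d ^ m d| ≤
      c.Cb * (1 / c.p) ^ (∑ d ∈ D, m d)
  edge : ∀ (j : Fin L) (X Y : Finset ν), X ⊆ P.V j → Y ⊆ P.Out → c.te ≤ X.card → c.te ≤ Y.card →
    ∃ x ∈ X, ∃ y ∈ Y, P.G.Adj x y

/-- The weight of a cell with `u` fixed rows and `φ` outside letters. -/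
noncomputable def Num.W (c : Num) (L u φ : ℕ) : ℝ :=
  (c.n : ℝ) ^ u * c.p ^ (u.choose 2) / c.p ^ (φ * (L - u))

/-- The total weight. -/
noncomputable def Num.Tot (c : Num) (L : ℕ) : ℝ := (c.n : ℝ) ^ L * c.p ^ (L.choose 2)

/-- The density of `X` in a cell. -/
noncomputable def Pl.den (P : Pl ν L) (c : Num) (X : Finset (Fin L → ν)) (U : Finset (Fin L))
    (α : Fin L → ν) (Φ : Finset ν) : ℝ := (cell P.G X U α Φ).card * c.W L U.card Φ.card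

/-- `X` is a dense set in the cell of `U`, `α`, `Φ`, and it is not much denser in cells with more
fixed rows (and the same outside letters). -/
structure Pl.Sp (P : Pl ν L) (c : Num) (X : Finset (Fin L → ν)) (U : Finset (Fin L))
    (α : Fin L → ν) (Φ : Finset ν) (Z G : ℝ) : Prop where
  sub : X ⊆ cell P.G (pts P.G P.V) U α Φ
  out : Φ ⊆ P.Out
  card_le : Φ.card ≤ 3 * L
  dens : c.Tot L ≤ Z * P.den c X U α Φ
  upper : ∀ (U' : Finset (Fin L)) (α' : Fin L → ν), U ⊆ U' → Eqn U α' α →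
    P.den c X U' α' Φ ≤ G * c.h ^ (U'.card - U.card) * P.den c X U α Φ

/-- `x` is good in `C` for the set `y` of outside letters: below `x` there is a spread part of `C`,
in a cell containing `x`, whose points are adjacent to `y`. -/
def Pl.Good (P : Pl ν L) (c : Num) (F : (Fin L → ν) → ℝ) (C : Finset (Fin L → ν))
    (x : Fin L → ν) (y : Finset ν) : Prop :=
  ∃ (U : Finset (Fin L)) (A : Finset (Fin L → ν)), A ⊆ C ∧
    (∀ x' ∈ A, F x' ≤ F x) ∧ U.card ≤ c.f ∧ P.Sp c A U x y c.Zg c.Gg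

open Classical in
/-- The points of `C` that are not good for some small adjacent set of outside letters
containing `Y`. -/
noncomputable def Pl.Bad (P : Pl ν L) (c : Num) (F : (Fin L → ν) → ℝ)
    (C : Finset (Fin L → ν)) (Y : Finset ν) : Finset (Fin L → ν) :=
  C.filter (fun x => ∃ y, Y ⊆ y ∧ y ⊆ P.Out ∧ y.card ≤ c.w ∧ Ad P.G univ x y ∧
    ¬ P.Good c F C x y)

/-- The points removed at the lines `0, ..., s - 1`. -/
noncomputable def Pl.bad (P : Pl ν L) (c : Num) (F : ℕ → (Fin L → ν) → ℝ) :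
    ℕ → Finset (Fin L → ν)
  | 0 => ∅
  | s + 1 => Pl.bad P c F s ∪ P.Bad c (F s) (pts P.G P.V \ Pl.bad P c F s) ∅

/-- The factor in the main lemma on cells. -/
noncomputable def Num.κ (c : Num) (u y : ℕ) : ℝ := c.κ0 * c.h ^ u / c.β ^ (8 * y)

/-- The claim of the main lemma for a set `C` in the cell of `U`, `α`, `Y`. -/
def Pl.Clm (P : Pl ν L) (c : Num) (F : (Fin L → ν) → ℝ) (C : Finset (Fin L → ν))
    (U : Finset (Fin L)) (α : Fin L → ν) (Y : Finset ν) : Prop :=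
  P.den c (P.Bad c F C Y) U α Y ^ 2 ≤ c.κ U.card Y.card * c.Tot L * P.den c C U α Y

/-- A family of sets of `g` outside letters, adjacent to the cell, with small codegrees: rate
`M ^ (L - u) * B`. -/
structure Pl.Fam (P : Pl ν L) (c : Num) (B : ℝ) (U : Finset (Fin L)) (α : Fin L → ν)
    (Φ : Finset ν) (O : Finset ω) (y : ω → Finset ν) (g : ℕ) : Prop where
  g_pos : 1 ≤ g
  g_le : g ≤ c.w
  out : ∀ o ∈ O, y o ⊆ P.Out
  dis : ∀ o ∈ O, Disjoint (y o) Φ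
  card : ∀ o ∈ O, (y o).card = g
  ad : ∀ o ∈ O, Ad P.G U α (y o)
  rate : ∀ γ : Finset ν, ((O.filter (fun o => γ ⊆ y o)).card : ℝ) *
    ((1 / c.p) ^ (L - U.card) * B) ^ γ.card ≤ O.card

/-! ### The sets `R ^ γ` -/

/-- The threshold of the cell of `U'`, `β`, `Φ ∪ γ`; `d` is the density of `R`. -/
noncomputable def Num.thr (c : Num) (G0 d : ℝ) (u g m : ℕ) : ℝ :=
  G0 * 8 ^ g * c.h ^ (m - u) * d

/-- There is a heavy set for `γ` in the cell of `U'`, `β`: its density is above the threshold, but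
in all smaller cells its density is below the threshold. `T Q` are the sets `R ^ Q`. -/
def Pl.Heavy (P : Pl ν L) (c : Num) (G0 d : ℝ) (u : ℕ) (Φ : Finset ν)
    (T : Finset ν → Finset (Fin L → ν)) (γ : Finset ν) (U' : Finset (Fin L)) (β : Fin L → ν)
    (X : Finset (Fin L → ν)) : Prop :=
  X ⊆ cell P.G (T ∅) U' β (Φ ∪ γ) ∧ (∀ Q ⊆ γ, Q ≠ γ → X ⊆ T Q) ∧
    c.thr G0 d u γ.card U'.card < P.den c X U' β (Φ ∪ γ) ∧
    ∀ (U'' : Finset (Fin L)) (β' : Fin L → ν), U' ⊆ U'' → U' ≠ U'' →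
      P.den c X U'' β' (Φ ∪ γ) ≤ c.thr G0 d u γ.card U''.card

/-- The sets `T γ = R ^ γ` for a set `R` in the cell of `U`, `α`, `Φ`. -/
structure Pl.Tow (P : Pl ν L) (c : Num) (G0 : ℝ) (R : Finset (Fin L → ν)) (U : Finset (Fin L))
    (α : Fin L → ν) (Φ : Finset ν) (T : Finset ν → Finset (Fin L → ν)) : Prop where
  zero : T ∅ = R
  sub : ∀ γ, T γ ⊆ cell P.G R U α (Φ ∪ γ)
  anti : ∀ γ Q, Q ⊆ γ → T γ ⊆ T Q
  upper : ∀ (γ : Finset ν), γ ⊆ P.Out → Disjoint γ Φ → ∀ (U' : Finset (Fin L)) (α' : Fin L → ν),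
    U ⊆ U' → U ≠ U' → Eqn U α' α →
    P.den c (T γ) U' α' (Φ ∪ γ) ≤ c.thr G0 (P.den c R U α Φ) U.card γ.card U'.card
  heavy : ∀ (γ : Finset ν) (x : Fin L → ν), γ ⊆ P.Out → Disjoint γ Φ → x ∈ R →
    Ad P.G univ x γ → x ∉ T γ → ∃ γ' ⊆ γ, x ∉ T γ' ∧ ∃ U' : Finset (Fin L), U ⊆ U' ∧ U ≠ U' ∧
      ∃ X, x ∈ X ∧ P.Heavy c G0 (P.den c R U α Φ) U.card Φ T γ' U' x X

/-- The set `γ` of outside letters makes `R` much less dense. -/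
def Pl.Light (P : Pl ν L) (c : Num) (T : Finset ν → Finset (Fin L → ν)) (U : Finset (Fin L))
    (α : Fin L → ν) (Φ γ : Finset ν) : Prop :=
  γ ⊆ P.Out ∧ Disjoint γ Φ ∧ Ad P.G U α γ ∧
    8 ^ γ.card * P.den c (T γ) U α (Φ ∪ γ) < P.den c (T ∅) U α Φ

open Classical in
/-- The minimal light sets of size `g`. -/
noncomputable def Pl.ML (P : Pl ν L) (c : Num) (T : Finset ν → Finset (Fin L → ν))
    (U : Finset (Fin L)) (α : Fin L → ν) (Φ : Finset ν) (g : ℕ) : Finset (Finset ν) :=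
  univ.filter (fun γ => γ.card = g ∧ P.Light c T U α Φ γ ∧
    ∀ γ' ⊆ γ, γ' ≠ γ → ¬ P.Light c T U α Φ γ')

/-! ### Simple facts -/

lemma Num.W_pos {c : Num} (hp : 0 < c.p) (hn : 0 < c.n) (L u φ : ℕ) : 0 < c.W L u φ := by
  unfold Num.W
  have : (0 : ℝ) < c.n := by exact_mod_cast hn
  positivity

lemma Num.Tot_pos {c : Num} (hp : 0 < c.p) (hn : 0 < c.n) (L : ℕ) : 0 < c.Tot L := by
  unfold Num.Tot
  have : (0 : ℝ) < c.n := by exact_mod_cast hn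
  positivity

lemma Pl.den_nonneg (P : Pl ν L) {c : Num} (hp : 0 < c.p) (hn : 0 < c.n)
    (X : Finset (Fin L → ν)) (U : Finset (Fin L)) (α : Fin L → ν) (Φ : Finset ν) :
    0 ≤ P.den c X U α Φ := mul_nonneg (Nat.cast_nonneg _) (Num.W_pos hp hn _ _ _).le

lemma Pl.den_mono (P : Pl ν L) {c : Num} (hp : 0 < c.p) (hn : 0 < c.n)
    {X Y : Finset (Fin L → ν)} (h : X ⊆ Y) (U : Finset (Fin L)) (α : Fin L → ν) (Φ : Finset ν) :
    P.den c X U α Φ ≤ P.den c Y U α Φ :=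
  mul_le_mul_of_nonneg_right (by exact_mod_cast card_le_card (cell_mono h U α Φ))
    (Num.W_pos hp hn _ _ _).le

lemma Pl.den_of_sub (P : Pl ν L) (c : Num) {X Y : Finset (Fin L → ν)} {U : Finset (Fin L)}
    {α : Fin L → ν} {Φ : Finset ν} (h : X ⊆ cell P.G Y U α Φ) :
    P.den c X U α Φ = X.card * c.W L U.card Φ.card := by
  unfold Pl.den
  rw [cell_eq h]

lemma Pl.Good.mono {P : Pl ν L} {c : Num} {F : (Fin L → ν) → ℝ} {C C' : Finset (Fin L → ν)}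
    {x : Fin L → ν} {y : Finset ν} (h : P.Good c F C x y) (hC : C ⊆ C') :
    P.Good c F C' x y := by
  obtain ⟨U, A, h1, h2⟩ := h
  exact ⟨U, A, h1.trans hC, h2⟩

lemma Pl.mem_Bad {P : Pl ν L} {c : Num} {F : (Fin L → ν) → ℝ} {C : Finset (Fin L → ν)}
    {Y : Finset ν} {x : Fin L → ν} : x ∈ P.Bad c F C Y ↔ x ∈ C ∧ ∃ y, Y ⊆ y ∧ y ⊆ P.Out ∧
      y.card ≤ c.w ∧ Ad P.G univ x y ∧ ¬ P.Good c F C x y := by
  simp [Pl.Bad]

lemma Pl.mem_ML {P : Pl ν L} {c : Num} {T : Finset ν → Finset (Fin L → ν)} {U : Finset (Fin L)}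
    {α : Fin L → ν} {Φ γ : Finset ν} {g : ℕ} : γ ∈ P.ML c T U α Φ g ↔
      γ.card = g ∧ P.Light c T U α Φ γ ∧ ∀ γ' ⊆ γ, γ' ≠ γ → ¬ P.Light c T U α Φ γ' := by
  simp [Pl.ML]

end Pool.Agent.H49.RD
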