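/-
Basic lemmas on spread sets.
-/
import Pool.Agent.H49.RD.Cn3

set_option autoImplicit false
set_option linter.unusedSectionVars false

open Finset

namespace Pool.Agent.H49.RD

open Pool.Agent.H49.RG (Cl Ad Eqn nbr cell pts mem_cell mem_nbr mem_pts cell_sub cell_mono
  cell_anti cell_cell cell_eq)

variable {ν : Type} [Fintype ν] [DecidableEq ν] {L : ℕ}

theorem cell_congr (G : SimpleGraph ν) (X : Finset (Fin L → ν)) {U : Finset (Fin L)}
    {α α' : Fin L → ν} (hα : Eqn U α' α) (Φ : Finset ν) : cell G X U α' Φ = cell G X U α Φ := by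
  ext x
  rw [mem_cell, mem_cell]
  constructor
  · rintro ⟨h1, h2, h3⟩
    exact ⟨h1, fun j hj => (h2 j hj).trans (hα j hj), h3⟩
  · rintro ⟨h1, h2, h3⟩
    exact ⟨h1, fun j hj => (h2 j hj).trans (hα j hj).symm, h3⟩

theorem den_congr (P : Pl ν L) (c : Num) (X : Finset (Fin L → ν)) {U : Finset (Fin L)}
    {α α' : Fin L → ν} (hα : Eqn U α' α) (Φ : Finset ν) :
    P.den c X U α' Φ = P.den c X U α Φ := by
  unfold Pl.den
  rw [cell_congr P.G X hα Φ]

theorem Eqn_refl (U : Finset (Fin L)) (α : Fin L → ν) : Eqn U α α := fun _ _ => rfl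

theorem Pl.Sp.mono {P : Pl ν L} {c : Num} {R : ℕ} (hc : c.OK R L) {X : Finset (Fin L → ν)}
    {U : Finset (Fin L)} {α : Fin L → ν} {Φ : Finset ν} {Z G Z' G' : ℝ}
    (h : P.Sp c X U α Φ Z G) (hZ : Z ≤ Z') (hG : G ≤ G') :
    P.Sp c X U α Φ Z' G' := by
  have hd := P.den_nonneg hc.p_pos hc.n_pos X U α Φ
  refine ⟨h.sub, h.out, h.card_le, h.dens.trans (mul_le_mul_of_nonneg_right hZ hd), ?_⟩
  intro U' α' h1 h2
  refine (h.upper U' α' h1 h2).trans ?_
  have hh : (0 : ℝ) ≤ c.h ^ (U'.card - U.card) := pow_nonneg (by linarith [hc.h_ge]) _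
  exact mul_le_mul_of_nonneg_right (mul_le_mul_of_nonneg_right hG hh) hd

theorem Pl.Sp.congr {P : Pl ν L} {c : Num} {X : Finset (Fin L → ν)}
    {U : Finset (Fin L)} {α α' : Fin L → ν} {Φ : Finset ν} {Z G : ℝ}
    (h : P.Sp c X U α Φ Z G) (hα : Eqn U α' α) : P.Sp c X U α' Φ Z G := by
  refine ⟨?_, h.out, h.card_le, ?_, ?_⟩
  · rw [cell_congr P.G _ hα Φ]
    exact h.sub
  · rw [den_congr P c X hα Φ]
    exact h.dens
  · intro U' β h1 h2
    rw [den_congr P c X hα Φ]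
    exact h.upper U' β h1 (fun j hj => (h2 j hj).trans (hα j hj))

theorem Pl.Sp.part {P : Pl ν L} {c : Num} {R : ℕ} (hc : c.OK R L) {X C : Finset (Fin L → ν)}
    {U : Finset (Fin L)} {α : Fin L → ν} {Φ : Finset ν} {Z G κ : ℝ}
    (h : P.Sp c X U α Φ Z G) (hZ : 0 ≤ Z) (hG : 0 ≤ G) (hC : C ⊆ X)
    (hcard : (X.card : ℝ) ≤ κ * C.card) : P.Sp c C U α Φ (Z * κ) (G * κ) := by
  have hW : 0 < c.W L U.card Φ.card := Num.W_pos hc.p_pos hc.n_pos _ _ _
  have hX := P.den_of_sub c h.sub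
  have hCd := P.den_of_sub c (hC.trans h.sub)
  have hXC : P.den c X U α Φ ≤ κ * P.den c C U α Φ := by
    rw [hX, hCd, ← mul_assoc]
    exact mul_le_mul_of_nonneg_right hcard hW.le
  refine ⟨hC.trans h.sub, h.out, h.card_le, ?_, ?_⟩
  · calc c.Tot L ≤ Z * P.den c X U α Φ := h.dens
      _ ≤ Z * (κ * P.den c C U α Φ) := mul_le_mul_of_nonneg_left hXC hZ
      _ = Z * κ * P.den c C U α Φ := by ring
  · intro U' α' h1 h2
    have hh : (0 : ℝ) ≤ c.h ^ (U'.card - U.card) := pow_nonneg (by linarith [hc.h_ge]) _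
    calc P.den c C U' α' Φ ≤ P.den c X U' α' Φ := P.den_mono hc.p_pos hc.n_pos hC _ _ _
      _ ≤ G * c.h ^ (U'.card - U.card) * P.den c X U α Φ := h.upper U' α' h1 h2
      _ ≤ G * c.h ^ (U'.card - U.card) * (κ * P.den c C U α Φ) :=
        mul_le_mul_of_nonneg_left hXC (mul_nonneg hG hh)
      _ = G * κ * c.h ^ (U'.card - U.card) * P.den c C U α Φ := by ring

theorem Pl.Sp.nonempty {P : Pl ν L} {c : Num} {R : ℕ} (hc : c.OK R L) {X : Finset (Fin L → ν)}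
    {U : Finset (Fin L)} {α : Fin L → ν} {Φ : Finset ν} {Z G : ℝ}
    (h : P.Sp c X U α Φ Z G) : X.Nonempty := by
  by_contra hX
  rw [not_nonempty_iff_eq_empty] at hX
  have hT : 0 < c.Tot L := Num.Tot_pos hc.p_pos hc.n_pos L
  have h1 := h.dens
  rw [P.den_of_sub c h.sub, hX, card_empty, Nat.cast_zero, zero_mul, mul_zero] at h1
  linarith

theorem Pl.Sp.val {P : Pl ν L} {c : Num} {R : ℕ} (hc : c.OK R L) {X : Finset (Fin L → ν)}
    {U : Finset (Fin L)} {α : Fin L → ν} {Φ : Finset ν} {Z G : ℝ}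
    (h : P.Sp c X U α Φ Z G) : P.Val U α Φ := by
  obtain ⟨x, hx⟩ := h.nonempty hc
  exact val_of_mem (h.sub hx)

/-- The set `T γ` is spread if it is not much less dense than `R`. -/
theorem Pl.Tow.sp {P : Pl ν L} {c : Num} {r : ℕ} (hc : c.OK r L) {R : Finset (Fin L → ν)}
    {U : Finset (Fin L)} {α : Fin L → ν} {Φ : Finset ν} {Z G θ : ℝ}
    {T : Finset ν → Finset (Fin L → ν)} (h : P.Sp c R U α Φ Z G) (hT : P.Tow c G R U α Φ T)
    (hZ : 0 ≤ Z) (hG : 1 ≤ G) (hθ : 1 ≤ θ) (γ : Finset ν) (hγ : γ ⊆ P.Out)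
    (hd : Disjoint γ Φ) (hcard : (Φ ∪ γ).card ≤ 3 * L)
    (hden : P.den c R U α Φ ≤ θ * P.den c (T γ) U α (Φ ∪ γ)) :
    P.Sp c (T γ) U α (Φ ∪ γ) (Z * θ) (G * (θ * 8 ^ γ.card)) := by
  have hh1 : (1 : ℝ) ≤ 8 ^ γ.card := one_le_pow₀ (by norm_num)
  have hdγ := P.den_nonneg hc.p_pos hc.n_pos (T γ) U α (Φ ∪ γ)
  refine ⟨?_, union_subset h.out hγ, hcard, ?_, ?_⟩
  · intro x hx
    obtain ⟨h1, h2, h3⟩ := mem_cell.1 (hT.sub γ hx)
    exact mem_cell.2 ⟨(mem_cell.1 (h.sub h1)).1, h2, h3⟩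
  · calc c.Tot L ≤ Z * P.den c R U α Φ := h.dens
      _ ≤ Z * (θ * P.den c (T γ) U α (Φ ∪ γ)) := mul_le_mul_of_nonneg_left hden hZ
      _ = Z * θ * P.den c (T γ) U α (Φ ∪ γ) := by ring
  · intro U' α' h1 h2
    by_cases hU : U = U'
    · subst hU
      rw [den_congr P c _ h2 _, Nat.sub_self, pow_zero, mul_one]
      have h3 : (1 : ℝ) ≤ G * (θ * 8 ^ γ.card) := by
        have := mul_le_mul hθ hh1 zero_le_one (by linarith)
        have := mul_le_mul hG this (by norm_num) (by linarith)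
        linarith
      calc P.den c (T γ) U α (Φ ∪ γ) = 1 * P.den c (T γ) U α (Φ ∪ γ) := (one_mul _).symm
        _ ≤ _ := mul_le_mul_of_nonneg_right h3 hdγ
    · have h3 := hT.upper γ hγ hd U' α' h1 hU h2
      unfold Num.thr at h3
      have hh : (0 : ℝ) ≤ c.h ^ (U'.card - U.card) := pow_nonneg (by linarith [hc.h_ge]) _
      calc P.den c (T γ) U' α' (Φ ∪ γ)
          ≤ G * 8 ^ γ.card * c.h ^ (U'.card - U.card) * P.den c R U α Φ := h3
        _ ≤ G * 8 ^ γ.card * c.h ^ (U'.card - U.card) *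
            (θ * P.den c (T γ) U α (Φ ∪ γ)) :=
          mul_le_mul_of_nonneg_left hden (mul_nonneg (mul_nonneg (by linarith)
            (by linarith)) hh)
        _ = _ := by ring

end Pool.Agent.H49.RD
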