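/-
Few points are adjacent to many sets of a family with small codegrees (section 7 of H11_RL.md).
-/
import Pool.Agent.H49.RD.Cn3
import Pool.Agent.H80.RG.Mom

set_option autoImplicit false
set_option linter.unusedSectionVars false

open Finset

namespace Pool.Agent.H49.RD

open Pool.Agent.H49.RG (Cl Ad Eqn nbr cell pts mem_cell mem_nbr mem_pts cell_sub cell_mono
  cell_anti cell_cell cell_eq)

variable {ν : Type} [Fintype ν] [DecidableEq ν] {L : ℕ}

open Classical in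
theorem exc_one {P : Pl ν L} {c : Num} {R : ℕ} (h : P.OK c) (hc : c.OK R L) (B : ℝ)
    (hB1 : 1 ≤ B) (hBk : (1 + 1 / B) ^ c.K1 ≤ 2)
    (U : Finset (Fin L)) (α : Fin L → ν) (Φ : Finset ν) (hΦ : Φ ⊆ P.Out)
    (hΦc : Φ.card ≤ 3 * L) (hv : P.Val U α Φ) (M : Finset (Finset ν)) (g : ℕ) (hg1 : 1 ≤ g)
    (hg2 : g ≤ c.w) (hM1 : ∀ γ ∈ M, γ ⊆ P.Out ∧ Disjoint γ Φ ∧ γ.card = g)
    (hM : ∀ Q : Finset ν, ((M.filter (fun γ => Q ⊆ γ)).card : ℝ) *
        ((1 / c.p) ^ (L - U.card) * B) ^ Q.card ≤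
        ((1 / c.p) ^ (L - U.card) * B) ^ g) :
    (((cell P.G (pts P.G P.V) U α Φ).filter (fun x =>
      B ^ (2 * g) < ((M.filter (fun γ => Ad P.G univ x γ)).card : ℝ))).card : ℝ) *
      B ^ c.KX ≤
      128 ^ L * (cell P.G (pts P.G P.V) U α Φ).card := by
  obtain ⟨k, hk⟩ : ∃ k, k = c.KX / g + 1 := ⟨_, rfl⟩
  have hkg : k * g ≤ c.K1 := by
    have h1 : c.KX / g * g ≤ c.KX := Nat.div_mul_le_self _ _
    have h2 := hc.wK
    rw [hk, add_mul, one_mul]
    omega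
  have hgk : c.KX ≤ g * k := by
    have h1 := Nat.lt_mul_div_succ c.KX hg1
    rw [hk]
    exact h1.le
  have hkK : k ≤ c.K1 := by
    have : k * 1 ≤ k * g := Nat.mul_le_mul_left _ hg1
    omega
  have hKL : c.K1 ≤ L := by
    have := hc.K_le
    omega
  set nat := cell P.G (pts P.G P.V) U α Φ with hnat
  set ρ : ℝ := (1 / c.p) ^ (L - U.card) * B with hρ
  set π : ℝ := c.p ^ (L - U.card) with hπ
  have hp := hc.p_pos
  have hB0 : 0 < B := by linarith
  have hπ0 : 0 < π := pow_pos hp _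
  have hρ0 : 0 < ρ := by positivity
  have hρπ : ρ * π = B := by
    rw [hρ, hπ, one_div, inv_pow]
    field_simp
  obtain ⟨adj, hadj⟩ : ∃ adj : (Fin L → ν) → ν → Prop, ∀ x v, adj x v ↔
      ∀ j ∈ Uᶜ, P.G.Adj (x j) v := ⟨fun x v => ∀ j ∈ Uᶜ, P.G.Adj (x j) v, fun _ _ => Iff.rfl⟩
  have hUc : (Uᶜ : Finset (Fin L)).card = L - U.card := by rw [card_compl, Fintype.card_fin]
  have hnb : ∀ S : Finset ν, Pool.Agent.H80.RG.nb nat adj S = P.sel U α Φ Uᶜ S := by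
    intro S
    ext x
    rw [Pool.Agent.H80.RG.mem_nb]
    unfold Pl.sel
    rw [mem_filter]
    exact ⟨fun hh => ⟨hh.1, fun j hj v hvS => (hadj x v).1 (hh.2 v hvS) j hj⟩,
      fun hh => ⟨hh.1, fun v hvS => (hadj x v).2 fun j hj => hh.2 j hj v hvS⟩⟩
  have hcnt : ∀ S : Finset ν, (S ⊆ P.Out ∧ Disjoint S Φ) → S.card ≤ c.K1 →
      ((Pool.Agent.H80.RG.nb nat adj S).card : ℝ) ≤ (64 ^ L * nat.card) * π ^ S.card := by
    intro S hS hSc
    rw [hnb S]
    have h1 := sel_le h hc U α Φ Uᶜ S disjoint_compl_left hΦ hS.1 hS.2 hΦc (by omega) hv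
    rw [hUc, mul_comm S.card, pow_mul] at h1
    calc _ ≤ _ := h1
      _ = _ := by ring
  have hV : ∀ S : Finset ν, S.card ≤ c.K1 →
      ∑ y ∈ M, π ^ (id y \ S).card ≤ 2 * B ^ g := by
    intro S hS
    have h2 := Pool.Agent.H80.RG.rate_sum M (id : Finset ν → Finset ν) π ρ⁻¹ (ρ ^ g) hπ0
      (by positivity) (by positivity) g (fun o ho => (hM1 o ho).2.2) S (fun Q _ => by
        have h3 := hM Q
        have h4 : 0 < ρ ^ Q.card := by positivity
        rw [inv_pow, ← div_eq_mul_inv, le_div_iff₀ h4]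
        exact h3)
    refine h2.trans ?_
    have h5 : ρ⁻¹ / π = 1 / B := by
      rw [div_eq_mul_inv, ← mul_inv, hρπ, one_div]
    have h6 : ρ ^ g * π ^ g = B ^ g := by rw [← mul_pow, hρπ]
    rw [h5, h6, mul_comm 2]
    refine mul_le_mul_of_nonneg_left ?_ (by positivity)
    refine le_trans ?_ hBk
    exact pow_le_pow_right₀ (by have : 0 < 1 / B := by positivity
                                linarith) hS
  have ha : (0 : ℝ) < B ^ g / 2 := by positivity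
  have h9 := Pool.Agent.H80.RG.moment_tail M (id : Finset ν → Finset ν) π (2 * B ^ g)
    hπ0.le (by positivity) c.K1 g k (fun o ho => (hM1 o ho).2.2.le) hV nat adj
    (64 ^ L * nat.card) (by positivity) (fun S => S ⊆ P.Out ∧ Disjoint S Φ)
    ⟨empty_subset _, disjoint_empty_left _⟩
    (fun S y hy hS => ⟨union_subset hS.1 (hM1 y hy).1,
      disjoint_union_left.2 ⟨hS.2, (hM1 y hy).2.1⟩⟩) hcnt hkg (B ^ g / 2) ha
  have h10 : (0 : ℝ) < (2 * B ^ g) ^ k := by positivity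
  have h11 : ((nat.filter (fun x => B ^ g / 2 * (2 * B ^ g) <
      ((Pool.Agent.H80.RG.hits M id adj x).card : ℝ))).card : ℝ) * (B ^ g / 2) ^ k
      ≤ 64 ^ L * nat.card := le_of_mul_le_mul_right h9 h10
  have h12 : ((nat.filter (fun x =>
      B ^ (2 * g) < ((M.filter (fun γ => Ad P.G univ x γ)).card : ℝ))).card : ℝ) ≤
      ((nat.filter (fun x => B ^ g / 2 * (2 * B ^ g) <
      ((Pool.Agent.H80.RG.hits M id adj x).card : ℝ))).card : ℝ) := by
    rw [Nat.cast_le]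
    refine card_le_card fun x hx => ?_
    rw [mem_filter] at hx ⊢
    refine ⟨hx.1, ?_⟩
    have h13 : B ^ g / 2 * (2 * B ^ g) = B ^ (2 * g) := by
      rw [two_mul g, pow_add]
      ring
    rw [h13]
    refine lt_of_lt_of_le hx.2 ?_
    have h14 : (M.filter (fun γ => Ad P.G univ x γ)).card ≤
        (Pool.Agent.H80.RG.hits M id adj x).card := by
      refine card_le_card fun γ hγ => ?_
      rw [mem_filter] at hγ
      rw [Pool.Agent.H80.RG.mem_hits]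
      exact ⟨hγ.1, fun v hvγ => (hadj x v).2 fun j _ => hγ.2 j (mem_univ j) v hvγ⟩
    exact_mod_cast h14
  have h15 : B ^ c.KX ≤ (B ^ g) ^ k := by
    rw [← pow_mul]
    exact pow_le_pow_right₀ hB1 hgk
  set N : ℝ := ((nat.filter (fun x => B ^ g / 2 * (2 * B ^ g) <
      ((Pool.Agent.H80.RG.hits M id adj x).card : ℝ))).card : ℝ) with hN
  have hN0 : 0 ≤ N := Nat.cast_nonneg _
  have h17 : N * (B ^ g) ^ k ≤ 128 ^ L * nat.card := by
    rw [div_pow] at h11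
    have h18 : (0 : ℝ) < 2 ^ k := by positivity
    rw [mul_div_assoc', div_le_iff₀ h18] at h11
    have h19 : (2 : ℝ) ^ k ≤ 2 ^ L := pow_le_pow_right₀ (by norm_num) (hkK.trans hKL)
    calc _ ≤ _ := h11
      _ ≤ 64 ^ L * nat.card * 2 ^ L := mul_le_mul_of_nonneg_left h19 (by positivity)
      _ = _ := by
        rw [show (128 : ℝ) = 64 * 2 by norm_num, mul_pow]
        ring
  calc ((nat.filter (fun x =>
      B ^ (2 * g) < ((M.filter (fun γ => Ad P.G univ x γ)).card : ℝ))).card : ℝ) *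
      B ^ c.KX ≤ N * B ^ c.KX :=
        mul_le_mul_of_nonneg_right h12 (by positivity)
    _ ≤ N * (B ^ g) ^ k := mul_le_mul_of_nonneg_left h15 hN0
    _ ≤ _ := h17

open Classical in
theorem exc_card {P : Pl ν L} {c : Num} {R : ℕ} (h : P.OK c) (hc : c.OK R L) (B : ℝ)
    (hB1 : 1 ≤ B) (hBk : (1 + 1 / B) ^ c.K1 ≤ 2)
    (U : Finset (Fin L)) (α : Fin L → ν) (Φ : Finset ν) (hΦ : Φ ⊆ P.Out)
    (hΦc : Φ.card ≤ 3 * L) (hv : P.Val U α Φ) (M : ℕ → Finset (Finset ν))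
    (hM1 : ∀ g, ∀ γ ∈ M g, γ ⊆ P.Out ∧ Disjoint γ Φ ∧ γ.card = g)
    (hM : ∀ g : ℕ, 1 ≤ g → g ≤ c.w → ∀ Q : Finset ν,
      (((M g).filter (fun γ => Q ⊆ γ)).card : ℝ) *
        ((1 / c.p) ^ (L - U.card) * B) ^ Q.card ≤
        ((1 / c.p) ^ (L - U.card) * B) ^ g) :
    (((cell P.G (pts P.G P.V) U α Φ).filter (fun x => ∃ g, 1 ≤ g ∧ g ≤ c.w ∧
      B ^ (2 * g) < (((M g).filter (fun γ => Ad P.G univ x γ)).card : ℝ))).card : ℝ) *
      B ^ c.KX ≤
      c.w * 128 ^ L * (cell P.G (pts P.G P.V) U α Φ).card := by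
  set nat := cell P.G (pts P.G P.V) U α Φ with hnat
  have h1 : nat.filter (fun x => ∃ g, 1 ≤ g ∧ g ≤ c.w ∧
      B ^ (2 * g) < (((M g).filter (fun γ => Ad P.G univ x γ)).card : ℝ)) ⊆
      (Icc 1 c.w).biUnion (fun g => nat.filter (fun x =>
      B ^ (2 * g) < (((M g).filter (fun γ => Ad P.G univ x γ)).card : ℝ))) := by
    intro x hx
    rw [mem_filter] at hx
    obtain ⟨hx1, g, hg1, hg2, hg3⟩ := hx
    exact mem_biUnion.2 ⟨g, mem_Icc.2 ⟨hg1, hg2⟩, mem_filter.2 ⟨hx1, hg3⟩⟩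
  have h2 : ((nat.filter (fun x => ∃ g, 1 ≤ g ∧ g ≤ c.w ∧
      B ^ (2 * g) < (((M g).filter (fun γ => Ad P.G univ x γ)).card : ℝ))).card : ℝ) ≤
      ∑ g ∈ Icc 1 c.w, ((nat.filter (fun x =>
      B ^ (2 * g) < (((M g).filter (fun γ => Ad P.G univ x γ)).card : ℝ))).card : ℝ) := by
    have h3 := (card_le_card h1).trans card_biUnion_le
    exact_mod_cast h3
  have hB0 : 0 < B := by linarith
  calc _ ≤ (∑ g ∈ Icc 1 c.w, ((nat.filter (fun x =>
      B ^ (2 * g) < (((M g).filter (fun γ => Ad P.G univ x γ)).card : ℝ))).card : ℝ)) *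
      B ^ c.KX := mul_le_mul_of_nonneg_right h2 (by positivity)
    _ = ∑ g ∈ Icc 1 c.w, ((nat.filter (fun x =>
      B ^ (2 * g) < (((M g).filter (fun γ => Ad P.G univ x γ)).card : ℝ))).card : ℝ) *
      B ^ c.KX := by rw [sum_mul]
    _ ≤ ∑ g ∈ Icc 1 c.w, (128 ^ L * (nat.card : ℝ)) := by
        refine sum_le_sum fun g hg => ?_
        rw [mem_Icc] at hg
        exact exc_one h hc B hB1 hBk U α Φ hΦ hΦc hv (M g) g hg.1 hg.2 (hM1 g)
          (hM g hg.1 hg.2)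
    _ = c.w * 128 ^ L * nat.card := by
        rw [sum_const, Nat.card_Icc, nsmul_eq_mul, Nat.add_sub_cancel]
        ring

end Pool.Agent.H49.RD
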