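import Pool.Agent.H49.RD.Gl

/-!
Several players: definitions. `V a j` is the block of row `j` of player `a`.
-/

set_option autoImplicit false
set_option linter.unusedSectionVars false

open Finset

namespace Pool.Agent.H49.RD

open Pool.Agent.H49.RG (Cl Ad Eqn nbr cell pts mem_cell mem_nbr mem_pts cell_sub cell_mono
  cell_anti cell_cell cell_eq)

variable {ν : Type} [Fintype ν] [DecidableEq ν] {R L : ℕ}

/-- The union of the sets `F b`, `b ≠ a`. -/
def oth (F : Fin R → Finset ν) (a : Fin R) : Finset ν :=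
  univ.biUnion (fun b => if b = a then ∅ else F b)

/-- Player `a`. -/
def pl (G : SimpleGraph ν) (V : Fin R → Fin L → Finset ν) (a : Fin R) : Pl ν L :=
  ⟨G, V a, oth (fun b => univ.biUnion (V b)) a⟩

/-- The letters of the point `v` in the rows `U`. -/
def lets (U : Finset (Fin L)) (v : Fin L → ν) : Finset ν := U.image v

/-- A state for the line `∑ a, F a (X a) < t`: the set `A a` of points of player `a` is a spread
subset of `Y a` in the cell of `U a`, `v a`, `Φ a`, where `Φ a` contains the letters of the other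
players; all combinations of points falsify the line. -/
def St (G : SimpleGraph ν) (V : Fin R → Fin L → Finset ν) (c : Num)
    (Y : Fin R → Finset (Fin L → ν)) (F : Fin R → (Fin L → ν) → ℝ) (t Z K : ℝ) : Prop :=
  ∃ (A : Fin R → Finset (Fin L → ν)) (U : Fin R → Finset (Fin L)) (v : Fin R → Fin L → ν)
    (Φ : Fin R → Finset ν), (∀ a, A a ⊆ Y a) ∧ (∀ a, (U a).card ≤ c.f) ∧
    (∀ a, (Φ a).card ≤ 2 * c.w) ∧ (∀ a, oth (fun b => lets (U b) (v b)) a ⊆ Φ a) ∧
    (∀ a, (pl G V a).Sp c (A a) (U a) (v a) (Φ a) Z K) ∧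
    ∀ X : Fin R → Fin L → ν, (∀ a, X a ∈ A a) → ∑ a, F a (X a) < t

lemma mem_oth {F : Fin R → Finset ν} {a : Fin R} {x : ν} :
    x ∈ oth F a ↔ ∃ b, b ≠ a ∧ x ∈ F b := by
  unfold oth
  simp only [mem_biUnion, mem_univ, true_and]
  constructor
  · rintro ⟨b, hb⟩
    by_cases h : b = a
    · simp [h] at hb
    · rw [if_neg h] at hb
      exact ⟨b, h, hb⟩
  · rintro ⟨b, hba, hb⟩
    exact ⟨b, by rw [if_neg hba]; exact hb⟩

lemma card_oth_le (F : Fin R → Finset ν) (a : Fin R) (d : ℕ) (h : ∀ b, (F b).card ≤ d) :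
    (oth F a).card + d ≤ R * d := by
  unfold oth
  have h1 : (univ.biUnion (fun b => if b = a then ∅ else F b)).card ≤
      ∑ b : Fin R, (if b = a then 0 else d) := by
    refine card_biUnion_le.trans (Finset.sum_le_sum fun b _ => ?_)
    by_cases hb : b = a
    · simp [hb]
    · simp [hb, h b]
  have h2 : (∑ b : Fin R, (if b = a then 0 else d)) + d = R * d := by
    have h3 : ∑ b : Fin R, d = (∑ b : Fin R, (if b = a then 0 else d)) +
        ∑ b : Fin R, (if b = a then d else 0) := by
      rw [← Finset.sum_add_distrib]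
      refine Finset.sum_congr rfl fun b _ => ?_
      split_ifs <;> simp
    rw [Finset.sum_ite_eq' univ a] at h3
    simp only [mem_univ, if_true] at h3
    rw [← h3]
    simp
  omega

lemma mem_lets {U : Finset (Fin L)} {v : Fin L → ν} {x : ν} :
    x ∈ lets U v ↔ ∃ j ∈ U, v j = x := by
  simp [lets]

lemma card_lets_le (U : Finset (Fin L)) (v : Fin L → ν) : (lets U v).card ≤ U.card :=
  card_image_le

lemma mem_pl_Out {G : SimpleGraph ν} {V : Fin R → Fin L → Finset ν} {a : Fin R} {x : ν} :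
    x ∈ (pl G V a).Out ↔ ∃ b, b ≠ a ∧ ∃ j, x ∈ V b j := by
  show x ∈ oth _ _ ↔ _
  rw [mem_oth]
  simp

end Pool.Agent.H49.RD
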