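import Pool.Agent.H49.RD.Mp

set_option autoImplicit false
set_option linter.unusedSectionVars false

open Finset

namespace Pool.Agent.H49.RD

open Pool.Agent.H49.RG (Cl Ad Eqn nbr cell pts mem_cell mem_nbr mem_pts cell_sub cell_mono
  cell_anti cell_cell cell_eq)

variable {ν : Type} [Fintype ν] [DecidableEq ν] {R L : ℕ}

/-- The number of letters in a row of a spread set. -/
theorem Axm_big {P : Pl ν L} {c : Num} (hc : c.OK R L) (A : Finset (Fin L → ν))
    (U : Finset (Fin L)) (v : Fin L → ν) (Φ : Finset ν)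
    (hS : P.Sp c A U v Φ c.Z1 c.G1) (i : Fin L) (hi : i ∉ U) :
    c.te ≤ (A.image (fun x => x i)).card := by
  classical
  have hp := hc.p_pos
  have hn := hc.n_pos
  have hne : A.Nonempty := Pl.Sp.nonempty hc hS
  have hA0 : (0 : ℝ) < A.card := by exact_mod_cast hne.card_pos
  have hW0 : 0 < c.W L U.card Φ.card := Num.W_pos hp hn _ _ _
  have hG0 : (0 : ℝ) < c.G1 := lt_of_lt_of_le (by norm_num) hc.G1_ge
  have hh0 : (0 : ℝ) < c.h := lt_of_lt_of_le one_pos hc.h_ge
  have hu : U.card + 1 ≤ L := by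
    have h1 : (insert i U).card ≤ (univ : Finset (Fin L)).card := card_le_card (subset_univ _)
    rw [card_insert_of_notMem hi, card_univ, Fintype.card_fin] at h1
    exact h1
  have hji : ∀ j ∈ U, j ≠ i := fun j hj h => hi (by rw [← h]; exact hj)
  have hfib : ∀ e : ν, ((A.filter (fun x => x i = e)).card : ℝ) * (c.n * c.p ^ (4 * L)) ≤
      c.G1 * c.h * A.card := by
    intro e
    have h1 := hS.upper (insert i U) (Function.update v i e) (subset_insert _ _)
      (fun j hj => Function.update_of_ne (hji j hj) _ _)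
    have h2 : A.filter (fun x => x i = e) ⊆ cell P.G A (insert i U) (Function.update v i e) Φ := by
      intro x hx
      obtain ⟨hxA, hxe⟩ := mem_filter.1 hx
      obtain ⟨-, hx2, hx3⟩ := mem_cell.1 (hS.sub hxA)
      refine mem_cell.2 ⟨hxA, ?_, hx3⟩
      intro j hj
      rcases mem_insert.1 hj with rfl | hj
      · rw [Function.update_self]
        exact hxe
      · rw [Function.update_of_ne (hji j hj)]
        exact hx2 j hj
    have h3 := W_le hc U.card 1 Φ.card hu hS.card_le
    rw [P.den_of_sub c hS.sub, card_insert_of_notMem hi, Nat.add_sub_cancel_left,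
      pow_one] at h1
    have h4 : ((A.filter (fun x => x i = e)).card : ℝ) * c.W L (U.card + 1) Φ.card ≤
        P.den c A (insert i U) (Function.update v i e) Φ := by
      unfold Pl.den
      rw [card_insert_of_notMem hi]
      exact mul_le_mul_of_nonneg_right (by exact_mod_cast card_le_card h2)
        (Num.W_pos hp hn _ _ _).le
    have h5 : ((A.filter (fun x => x i = e)).card : ℝ) * (c.n * c.p ^ (4 * L)) *
        c.W L U.card Φ.card ≤ c.G1 * c.h * A.card * c.W L U.card Φ.card := by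
      calc ((A.filter (fun x => x i = e)).card : ℝ) * (c.n * c.p ^ (4 * L)) * c.W L U.card Φ.card
          = ((A.filter (fun x => x i = e)).card : ℝ) *
            (c.W L U.card Φ.card * (c.n * c.p ^ (4 * L)) ^ 1) := by ring
        _ ≤ ((A.filter (fun x => x i = e)).card : ℝ) * c.W L (U.card + 1) Φ.card :=
            mul_le_mul_of_nonneg_left h3 (Nat.cast_nonneg _)
        _ ≤ _ := h4.trans (h1.trans (le_of_eq (by ring)))
    exact le_of_mul_le_mul_right h5 hW0
  have hsum : (A.card : ℝ) * (c.n * c.p ^ (4 * L)) ≤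
      ((A.image (fun x => x i)).card : ℝ) * (c.G1 * c.h * A.card) := by
    have h1 : (A.card : ℝ) = ∑ e ∈ A.image (fun x => x i),
        ((A.filter (fun x => x i = e)).card : ℝ) := by
      have := Finset.card_eq_sum_card_image (fun x : Fin L → ν => x i) A
      exact_mod_cast this
    calc (A.card : ℝ) * (c.n * c.p ^ (4 * L)) = ∑ e ∈ A.image (fun x => x i),
          ((A.filter (fun x => x i = e)).card : ℝ) * (c.n * c.p ^ (4 * L)) := by
          rw [← Finset.sum_mul, ← h1]
      _ ≤ ∑ e ∈ A.image (fun x => x i), (c.G1 * c.h * A.card) :=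
          Finset.sum_le_sum fun e _ => hfib e
      _ = _ := by rw [Finset.sum_const, nsmul_eq_mul]
  have hnp : c.n * c.p ^ (4 * L) ≤ ((A.image (fun x => x i)).card : ℝ) * (c.G1 * c.h) := by
    have h1 : (c.n * c.p ^ (4 * L)) * (A.card : ℝ) ≤
        ((A.image (fun x => x i)).card : ℝ) * (c.G1 * c.h) * A.card := by
      calc (c.n * c.p ^ (4 * L)) * (A.card : ℝ) = (A.card : ℝ) * (c.n * c.p ^ (4 * L)) := by ring
        _ ≤ _ := hsum.trans (le_of_eq (by ring))
    exact le_of_mul_le_mul_right h1 hA0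
  have h1 : (c.te : ℝ) * (c.G1 * c.h) ≤ ((A.image (fun x => x i)).card : ℝ) * (c.G1 * c.h) := by
    calc (c.te : ℝ) * (c.G1 * c.h) = c.te * c.G1 * c.h := by ring
      _ ≤ c.n * c.p ^ (4 * L) := hc.F11
      _ ≤ _ := hnp
  exact_mod_cast le_of_mul_le_mul_right h1 (mul_pos hG0 hh0)

theorem exists_adj {G : SimpleGraph ν} {V : Fin R → Fin L → Finset ν} {c : Num}
    (h : ∀ a, (pl G V a).OK c) (hc : c.OK R L)
    (A : Fin R → Finset (Fin L → ν)) (U : Fin R → Finset (Fin L)) (v : Fin R → Fin L → ν)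
    (Φ : Fin R → Finset ν) (hΦ : ∀ a, oth (fun b => lets (U b) (v b)) a ⊆ Φ a)
    (hS : ∀ a, (pl G V a).Sp c (A a) (U a) (v a) (Φ a) c.Z1 c.G1) (a b : Fin R) (i j : Fin L)
    (hij : (a, i) ≠ (b, j)) :
    ∃ X : Fin R → Fin L → ν, (∀ a, X a ∈ A a) ∧ G.Adj (X a i) (X b j) := by
  classical
  have hne : ∀ d, (A d).Nonempty := fun d => Pl.Sp.nonempty hc (hS d)
  choose X0 hX0 using fun d => hne d
  have hcell : ∀ d, ∀ x ∈ A d, x ∈ cell G (pts G (V d)) (U d) (v d) (Φ d) :=
    fun d x hx => (hS d).sub hx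
  have hpts : ∀ d, ∀ x ∈ A d, x ∈ pts G (V d) := fun d x hx => (mem_cell.1 (hcell d x hx)).1
  by_cases hab : a = b
  · subst hab
    have hne : i ≠ j := fun h => hij (by rw [h])
    exact ⟨X0, hX0, (mem_pts.1 (hpts a _ (hX0 a))).2 i j hne⟩
  -- two points give an assignment
  have hfin : ∀ x ∈ A a, ∀ y ∈ A b, G.Adj (x i) (y j) →
      ∃ X : Fin R → Fin L → ν, (∀ a, X a ∈ A a) ∧ G.Adj (X a i) (X b j) := by
    intro x hx y hy hxy
    refine ⟨Function.update (Function.update X0 a x) b y, ?_, ?_⟩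
    · intro d
      by_cases hd : d = b
      · subst hd
        rw [Function.update_self]
        exact hy
      · rw [Function.update_of_ne hd]
        by_cases hd' : d = a
        · subst hd'
          rw [Function.update_self]
          exact hx
        · rw [Function.update_of_ne hd']
          exact hX0 d
    · rw [Function.update_of_ne hab, Function.update_self, Function.update_self]
      exact hxy
  by_cases hia : i ∈ U a
  · refine hfin (X0 a) (hX0 a) (X0 b) (hX0 b) ?_
    have h1 : v a i ∈ Φ b := hΦ b (mem_oth.2 ⟨a, hab, mem_lets.2 ⟨i, hia, rfl⟩⟩)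
    have h2 := (mem_cell.1 (hcell b _ (hX0 b))).2.2 j (mem_univ _) _ h1
    have h3 := (mem_cell.1 (hcell a _ (hX0 a))).2.1 i hia
    rw [h3]
    exact h2.symm
  by_cases hjb : j ∈ U b
  · refine hfin (X0 a) (hX0 a) (X0 b) (hX0 b) ?_
    have h1 : v b j ∈ Φ a := hΦ a (mem_oth.2 ⟨b, fun h => hab h.symm, mem_lets.2 ⟨j, hjb, rfl⟩⟩)
    have h2 := (mem_cell.1 (hcell a _ (hX0 a))).2.2 i (mem_univ _) _ h1
    have h3 := (mem_cell.1 (hcell b _ (hX0 b))).2.1 j hjb
    rw [h3]
    exact h2
  have hE := Axm_big hc (A a) (U a) (v a) (Φ a) (hS a) i hia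
  have hE' := Axm_big hc (A b) (U b) (v b) (Φ b) (hS b) j hjb
  obtain ⟨e, he, e', he', hss⟩ := (h a).edge i ((A a).image (fun x => x i))
    ((A b).image (fun x => x j)) (by
      intro u hu
      obtain ⟨x, hx, rfl⟩ := mem_image.1 hu
      exact (mem_pts.1 (hpts a _ hx)).1 i) (by
      intro u hu
      obtain ⟨x, hx, rfl⟩ := mem_image.1 hu
      exact mem_pl_Out.2 ⟨b, fun h => hab h.symm, j, (mem_pts.1 (hpts b _ hx)).1 j⟩) hE hE'
  obtain ⟨x, hx, rfl⟩ := mem_image.1 he
  obtain ⟨y, hy, rfl⟩ := mem_image.1 he'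
  exact hfin x hx y hy hss

end Pool.Agent.H49.RD
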