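/-
Few minimal light sets (section 9 of H11_RL.md), from the lemma TSH.
-/
import Pool.Agent.H11.RD.Tsh
import Pool.Agent.H49.RD.Mx
import Pool.Agent.H49.RD.C1

set_option autoImplicit false
set_option linter.unusedSectionVars false

open Finset

namespace Pool.Agent.H49.RD

open Pool.Agent.H49.RG (Cl Ad Eqn nbr cell pts mem_cell mem_nbr mem_pts cell_sub cell_mono
  cell_anti cell_cell cell_eq)

variable {ν : Type} [Fintype ν] [DecidableEq ν] {L : ℕ}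

lemma Lg_rho_pos {c : Num} {R : ℕ} (hc : c.OK R L) (u : ℕ) :
    1 ≤ (1 / c.p) ^ (L - u) * c.β ^ 2 := by
  have hp := hc.p_pos
  have h1 : 1 ≤ 1 / c.p := by
    rw [le_div_iff₀ hp, one_mul]
    exact hc.p_le
  have h2 : 1 ≤ (1 / c.p) ^ (L - u) := one_le_pow₀ h1
  have h3 : 1 ≤ c.β ^ 2 := one_le_pow₀ (by linarith [hc.β_ge])
  nlinarith

open Classical in
theorem ml_card {P : Pl ν L} {c : Num} {R : ℕ} (h : P.OK c) (hc : c.OK R L)
    (A : Finset (Fin L → ν)) (U : Finset (Fin L)) (α : Fin L → ν) (Φ : Finset ν) {G : ℝ}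
    (hG1 : 1 ≤ G) (hG : G ≤ c.G1) (hA : P.Sp c A U α Φ c.Z1 G)
    (T : Finset ν → Finset (Fin L → ν)) (hT : P.Tow c G A U α Φ T)
    (hΦ : Φ.card + c.w ≤ 3 * L) (g : ℕ) (hg : 1 ≤ g) (hgw : g ≤ c.w) (Q : Finset ν) :
    (((P.ML c T U α Φ g).filter (fun γ => Q ⊆ γ)).card : ℝ) *
      ((1 / c.p) ^ (L - U.card) * c.β ^ 2) ^ Q.card ≤
      ((1 / c.p) ^ (L - U.card) * c.β ^ 2) ^ g := by
  by_contra hcon
  have hρ := Lg_rho_pos (L := L) hc U.card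
  set ρ : ℝ := (1 / c.p) ^ (L - U.card) * c.β ^ 2 with hρdef
  have hρ0 : 0 < ρ := by linarith
  obtain ⟨b, hQb, hbg, hOne, hrate⟩ := max_family (P.ML c T U α Φ g) g
    (fun γ hγ => (Pl.mem_ML.1 hγ).1) ρ hρ0 Q (not_le.1 hcon)
  set O : Finset (Finset ν) := (P.ML c T U α Φ g).filter (fun γ => b ⊆ γ) with hOdef
  have hOmem : ∀ γ ∈ O, γ ∈ P.ML c T U α Φ g ∧ b ⊆ γ := fun γ hγ => Finset.mem_filter.1 hγ
  obtain ⟨γ0, hγ0⟩ := hOne
  obtain ⟨hγ0m, hbγ0⟩ := hOmem γ0 hγ0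
  obtain ⟨hγ0c, hγ0L, hγ0min⟩ := Pl.mem_ML.1 hγ0m
  have hbne : b ≠ γ0 := by
    intro h1
    rw [h1, hγ0c] at hbg
    exact lt_irrefl _ hbg
  have hbnl := hγ0min b hbγ0 hbne
  obtain ⟨hγout, hγdis, hγad, -⟩ := hγ0L
  have hbout : b ⊆ P.Out := hbγ0.trans hγout
  have hbdis : Disjoint b Φ := Finset.disjoint_of_subset_left hbγ0 hγdis
  have hbad : Ad P.G U α b := hγad.mono (Finset.Subset.refl _) hbγ0
  have hbden : P.den c A U α Φ ≤ 8 ^ b.card * P.den c (T b) U α (Φ ∪ b) := by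
    by_contra h1
    refine hbnl ⟨hbout, hbdis, hbad, ?_⟩
    rw [hT.zero]
    exact not_le.1 h1
  have hFam : P.Fam c (c.β ^ 2) U α (Φ ∪ b) O (fun γ => γ \ b) (g - b.card) := by
    refine ⟨by omega, by omega, ?_, ?_, ?_, ?_, hrate⟩
    · intro o ho
      obtain ⟨h1, -⟩ := hOmem o ho
      exact (Finset.sdiff_subset).trans (Pl.mem_ML.1 h1).2.1.1
    · intro o ho
      obtain ⟨h1, -⟩ := hOmem o ho
      have h2 := (Pl.mem_ML.1 h1).2.1.2.1
      rw [Finset.disjoint_union_right]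
      exact ⟨Finset.disjoint_of_subset_left Finset.sdiff_subset h2, Finset.sdiff_disjoint⟩
    · intro o ho
      obtain ⟨h1, h2⟩ := hOmem o ho
      show (o \ b).card = g - b.card
      rw [Finset.card_sdiff_of_subset h2, (Pl.mem_ML.1 h1).1]
    · intro o ho
      obtain ⟨h1, -⟩ := hOmem o ho
      exact (Pl.mem_ML.1 h1).2.1.2.2.1.mono (Finset.Subset.refl _) Finset.sdiff_subset
  obtain ⟨o, hoO, hoden⟩ := tsh h hc hA hG1 hG hT hΦ b hbout hbdis hbden O ⟨γ0, hγ0⟩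
    (fun γ => γ \ b) hFam (by omega)
  obtain ⟨hom, hbo⟩ := hOmem o hoO
  obtain ⟨hoc, hoL, -⟩ := Pl.mem_ML.1 hom
  have hun : b ∪ (o \ b) = o := Finset.union_sdiff_of_subset hbo
  simp only [hun] at hoden
  have hnn : 0 ≤ P.den c (T o) U α (Φ ∪ o) := P.den_nonneg hc.p_pos hc.n_pos _ _ _ _
  have hfin : P.den c A U α Φ ≤ 8 ^ g * P.den c (T o) U α (Φ ∪ o) := by
    calc P.den c A U α Φ ≤ 8 ^ b.card * P.den c (T b) U α (Φ ∪ b) := hbden
      _ ≤ 8 ^ b.card * (8 * P.den c (T o) U α (Φ ∪ o)) :=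
          mul_le_mul_of_nonneg_left hoden (by positivity)
      _ = 8 ^ (b.card + 1) * P.den c (T o) U α (Φ ∪ o) := by rw [pow_succ]; ring
      _ ≤ _ := mul_le_mul_of_nonneg_right (pow_le_pow_right₀ (by norm_num) hbg) hnn
  obtain ⟨_, _, _, h4⟩ := hoL
  rw [hoc, hT.zero] at h4
  linarith

end Pool.Agent.H49.RD
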