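/-
The numbers (helper49). Everything is a power of `a = n^(1/(204800 R))` times a power of 2;
`2 ^ (100 L) ≤ a` and `L ^ (2^42 R z) ≤ a`.
-/
import Pool.Agent.H49.RD.Defs

set_option autoImplicit false

namespace Pool.Agent.H49.RD

/-- The numbers, in terms of a number `a`. -/
noncomputable def numl (a : ℝ) (R L z n N r : ℕ) (p : ℝ) : Num where
  n := n
  w := R * (1000 * z)
  f := 1000 * z
  s := 8 * L
  r := r
  No := N
  K1 := 2 ^ 46 * R ^ 2 * z
  KX := 70000 * R * z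
  kl := 400000 * R
  μ := 20000 * R
  D := 2 ^ 23 * R
  t0 := 300 * z
  te := Nat.sqrt n + 1
  cm := 1000 * z + 3
  p := p
  β := a ^ 32
  l := a ^ 16
  B1 := a ^ 4
  l1 := a
  Bp := a ^ 8
  h := a ^ (512 * R)
  κ0 := 8 ^ L / ((N : ℝ) ^ z * a ^ (512 * R))
  Z1 := a ^ (512000 * (R * z)) * (a ^ (512 * R)) ^ 2
  G1 := 2 ^ (10 * L)
  Zg := a ^ (512000 * (R * z)) * a ^ (512 * R)
  Gg := 2 ^ L
  ZS := a ^ (512000 * (R * z)) * a ^ (512 * R) * 8 ^ R
  GS := 2 ^ (8 * L)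
  e0 := 8 * ((R * (1000 * z) : ℕ) : ℝ) * L
  Cb := a ^ (128000 * R)

lemma Nm_le {a : ℝ} {E : ℕ} (ha : 2 ^ E ≤ a) {x y y' : ℕ} (hx : x ≤ E) (hy : y + 1 ≤ y') :
    (2 : ℝ) ^ x * a ^ y ≤ a ^ y' := by
  have h1 : (1 : ℝ) ≤ a := (one_le_pow₀ (by norm_num)).trans ha
  have h2 : (2 : ℝ) ^ x ≤ a := (pow_le_pow_right₀ (by norm_num) hx).trans ha
  calc (2 : ℝ) ^ x * a ^ y ≤ a * a ^ y := mul_le_mul_of_nonneg_right h2 (by positivity)
    _ = a ^ (y + 1) := by ring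
    _ ≤ a ^ y' := pow_le_pow_right₀ h1 hy

lemma Nm_leR {a : ℝ} {E : ℕ} (ha : 2 ^ E ≤ a) {x y y' j : ℕ} (hx : x ≤ E * j) (hy : y + j ≤ y') :
    (2 : ℝ) ^ x * a ^ y ≤ a ^ y' := by
  have h1 : (1 : ℝ) ≤ a := (one_le_pow₀ (by norm_num)).trans ha
  have h2 : (2 : ℝ) ^ x ≤ a ^ j := by
    refine (pow_le_pow_right₀ (by norm_num) hx).trans ?_
    rw [pow_mul]
    exact pow_le_pow_left₀ (by positivity) ha j
  calc (2 : ℝ) ^ x * a ^ y ≤ a ^ j * a ^ y := mul_le_mul_of_nonneg_right h2 (by positivity)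
    _ = a ^ (y + j) := by ring
    _ ≤ a ^ y' := pow_le_pow_right₀ h1 hy

lemma Nm_nat (a : ℕ) : (a : ℝ) ≤ 2 ^ a := by
  exact_mod_cast (Nat.lt_two_pow_self (n := a)).le

/-- Multiplying out `κ0`. -/
lemma Nm_κ {A B C D : ℝ} (hD : 0 < D) (h : A * D ≤ C * B) : A ≤ C / D * B := by
  rw [div_mul_eq_mul_div, le_div_iff₀ hD]
  exact h

lemma Nm_exp {X : ℝ} {K : ℕ} (h : 2 * (K : ℝ) ≤ X) (hX : 0 < X) : (1 + 1 / X) ^ K ≤ 2 := by
  have h3 : 1 + 1 / X ≤ Real.exp (1 / X) := by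
    have := Real.add_one_le_exp (1 / X)
    linarith
  have h4 : (1 + 1 / X) ^ K ≤ Real.exp (K * (1 / X)) := by
    rw [Real.exp_nat_mul]
    exact pow_le_pow_left₀ (by positivity) h3 K
  refine h4.trans ?_
  have h5 : (K : ℝ) * (1 / X) ≤ 1 / 2 := by
    rw [mul_one_div, div_le_iff₀ hX]
    linarith
  have h6 : Real.exp (1 / 2) ≤ 2 := by
    have h7 : Real.exp (1 / 2) ^ 2 = Real.exp 1 := by
      rw [← Real.exp_nat_mul]
      norm_num
    have h8 := Real.exp_one_lt_d9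
    have h9 := Real.exp_pos (1 / 2)
    nlinarith
  exact (Real.exp_le_exp.2 h5).trans h6

/-- `p ^ L * a ^ (2048 R) ≥ 1`. -/
lemma Nm_p (a : ℝ) (R L n : ℕ) (p : ℝ) (hp0 : 0 < p)
    (hp : 1 ≤ (n : ℝ) * p ^ (100 * L)) (ha : 1 ≤ a) (han : a ^ (204800 * R) = n) :
    1 ≤ p ^ L * a ^ (2048 * R) := by
  have ha0 : 0 < a := by linarith
  by_contra hcon
  push Not at hcon
  have h1 : (p ^ L * a ^ (2048 * R)) ^ 100 < 1 :=
    pow_lt_one₀ (by positivity) hcon (by norm_num)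
  have h2 : (n : ℝ) * p ^ (100 * L) = (p ^ L * a ^ (2048 * R)) ^ 100 := by
    rw [← han]
    ring
  linarith

/-- Simple facts on the sizes. -/
lemma Nm_size (R L z : ℕ) (hR : 1 ≤ R) (hz : 1 ≤ z) (hL : 2 ^ 49 * R ^ 2 * z ≤ L) :
    2 ^ 49 * (R * z) ≤ L ∧ 2 ^ 49 * R ≤ L ∧ 2 ^ 49 * z ≤ L := by
  have h1 : 2 ^ 49 * (R * z) ≤ L := by
    refine le_trans ?_ hL
    rw [mul_assoc]
    apply Nat.mul_le_mul_left
    apply Nat.mul_le_mul_right
    nlinarith
  have h2 : 2 ^ 49 * R ≤ L := le_trans (Nat.mul_le_mul_left _ (Nat.le_mul_of_pos_right _ hz)) h1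
  have h3 : 2 ^ 49 * z ≤ L := le_trans (Nat.mul_le_mul_left _ (Nat.le_mul_of_pos_left _ hR)) h1
  exact ⟨h1, h2, h3⟩

lemma Nm_pow4 (L : ℕ) : (4 : ℝ) ^ L = 2 ^ (2 * L) := by
  rw [pow_mul]
  norm_num

lemma Nm_pow8 (L : ℕ) : (8 : ℝ) ^ L = 2 ^ (3 * L) := by
  rw [pow_mul]
  norm_num

lemma Nm_pow16 (L : ℕ) : (16 : ℝ) ^ L = 2 ^ (4 * L) := by
  rw [pow_mul]
  norm_num

lemma Nm_pow64 (L : ℕ) : (64 : ℝ) ^ L = 2 ^ (6 * L) := by
  rw [pow_mul]
  norm_num

theorem numl_ok (a : ℝ) (R L z n N r : ℕ) (p : ℝ) (hR : 1 ≤ R) (hz : 1 ≤ z)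
    (hL : 2 ^ 49 * R ^ 2 * z ≤ L) (hr : r ≤ L) (hp0 : 0 < p) (hp1 : p ≤ 1)
    (hp : 1 ≤ (n : ℝ) * p ^ (100 * L)) (hN0 : 0 < N) (hN : N ≤ n * 2 ^ (2 * L))
    (ha : 2 ^ (100 * L) ≤ a) (haQ : (L : ℝ) ^ (2 ^ 42 * (R * z)) ≤ a)
    (han : a ^ (204800 * R) = n) :
    (numl a R L z n N r p).OK R L := by
  obtain ⟨s1, s2, s3⟩ := Nm_size R L z hR hz hL
  have ha1 : 1 ≤ a := (one_le_pow₀ (by norm_num)).trans ha
  have ha0 : 0 < a := by linarith
  have hL1 : 1 ≤ L := by omega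
  have hRz : 1 ≤ R * z := Nat.mul_pos hR hz
  have hn0 : (0 : ℝ) < n := by rw [← han]; positivity
  have hn0' : 0 < n := by exact_mod_cast hn0
  have hn1 : (1 : ℝ) ≤ n := by exact_mod_cast hn0'
  have hNpos : (0 : ℝ) < N := by exact_mod_cast hN0
  have hNr0 : (N : ℝ) ≤ a ^ (230400 * R) := by
    have e2 : (N : ℝ) ≤ n * 2 ^ (2 * L) := by exact_mod_cast hN
    refine e2.trans ?_
    rw [← han]
    calc a ^ (204800 * R) * 2 ^ (2 * L) = 2 ^ (2 * L) * a ^ (204800 * R) := by ring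
      _ ≤ a ^ (230400 * R) := Nm_le ha (by omega) (by omega)
  have hNr : (N : ℝ) ≤ a ^ (256000 * R) :=
    hNr0.trans (pow_le_pow_right₀ ha1 (by omega))
  have hNz : (N : ℝ) ^ z ≤ a ^ (256000 * (R * z)) := by
    refine (pow_le_pow_left₀ hNpos.le hNr z).trans (le_of_eq ?_)
    ring
  have hpL := Nm_p a R L n p hp0 hp ha1 han
  have hpL0 : 0 < p ^ L := by positivity
  have hq : (1 / p) ^ L ≤ a ^ (2048 * R) := by
    rw [one_div, inv_pow, inv_le_iff_one_le_mul₀ hpL0, mul_comm]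
    exact hpL
  have h4 : a ^ (196608 * R) ≤ n * p ^ (4 * L) := by
    have h2 : (n : ℝ) * p ^ (4 * L) = a ^ (196608 * R) * (p ^ L * a ^ (2048 * R)) ^ 4 := by
      rw [← han]
      ring
    rw [h2]
    exact le_mul_of_one_le_right (by positivity) (one_le_pow₀ hpL)
  have h5 : a ^ (194560 * R) ≤ n * p ^ (5 * L) := by
    have h2 : (n : ℝ) * p ^ (5 * L) = a ^ (194560 * R) * (p ^ L * a ^ (2048 * R)) ^ 5 := by
      rw [← han]
      ring
    rw [h2]
    exact le_mul_of_one_le_right (by positivity) (one_le_pow₀ hpL)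
  have hD : 0 < (N : ℝ) ^ z * a ^ (512 * R) := by positivity
  have h8L : (1 : ℝ) ≤ 8 ^ L := one_le_pow₀ (by norm_num)
  have hK : 8 * (2 ^ 46 * R ^ 2 * z) ≤ L := by
    refine le_trans (le_of_eq ?_) hL
    ring
  have hKw : 2 * ((2 ^ 46 * R ^ 2 * z : ℕ) : ℝ) * ((R * (1000 * z) : ℕ) : ℝ) ≤ 2 ^ (2 * L) := by
    have e1 : (2 : ℝ) * ((2 ^ 46 * R ^ 2 * z : ℕ) : ℝ) ≤ L := by
      have : 2 * (2 ^ 46 * R ^ 2 * z) ≤ L := by omega
      exact_mod_cast this
    have e2 : ((R * (1000 * z) : ℕ) : ℝ) ≤ L := by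
      have : R * (1000 * z) ≤ L := by
        calc R * (1000 * z) = 1000 * (R * z) := by ring
          _ ≤ 2 ^ 49 * (R * z) := Nat.mul_le_mul_right _ (by norm_num)
          _ ≤ L := s1
      exact_mod_cast this
    have e3 := Nm_nat L
    calc 2 * ((2 ^ 46 * R ^ 2 * z : ℕ) : ℝ) * ((R * (1000 * z) : ℕ) : ℝ) ≤ L * L :=
          mul_le_mul e1 e2 (by positivity) (by positivity)
      _ ≤ 2 ^ L * 2 ^ L := mul_le_mul e3 e3 (by positivity) (by positivity)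
      _ = 2 ^ (2 * L) := by ring
  have hw3 : 1000 * (R * z) ≤ L := by omega
  have hLr : (1 : ℝ) ≤ L := by exact_mod_cast hL1
  have he0L : 8 * ((R * (1000 * z) : ℕ) : ℝ) * L ≤ (L : ℝ) ^ 2 := by
    have e1 : 8 * ((R * (1000 * z) : ℕ) : ℝ) ≤ L := by
      have e2 : 8 * (R * (1000 * z)) ≤ L := by
        have e3 : 8 * (R * (1000 * z)) = 8000 * (R * z) := by ring
        omega
      exact_mod_cast e2
    nlinarith
  have he01 : (1 : ℝ) ≤ 8 * ((R * (1000 * z) : ℕ) : ℝ) * L := by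
    have e1 : 1 ≤ 8 * (R * (1000 * z)) * L := by
      have e2 : 1 ≤ 8 * (R * (1000 * z)) := by
        have e3 : 8 * (R * (1000 * z)) = 8000 * (R * z) := by ring
        omega
      exact Nat.mul_pos e2 hL1
    exact_mod_cast e1
  refine
    { R_pos := hR
      L_pos := hL1
      n_pos := hn0'
      f_pos := ?_
      f_lt := ?_
      p_pos := hp0
      p_le := hp1
      β_ge := ?_
      h_ge := one_le_pow₀ ha1
      κ0_pos := ?_
      Z1_ge := ?_
      G1_ge := ?_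
      w_eq := rfl
      μ_pos := ?_
      t0_pos := ?_
      kl_pos := ?_
      KX_pos := ?_
      D_ge := ?_
      DK := ?_
      wK := ?_
      klK := ?_
      K_le := hK
      s_ge := ?_
      s_le := le_rfl
      tB := ⟨?_, ?_, ?_, ?_⟩
      tB1 := ⟨ha1, ?_, ?_, ?_⟩
      e0_ge := le_rfl
      e0_one := he01
      pt0 := ?_
      No_le := ?_
      Cb_nn := ?_
      FCb := ?_
      μwK := ?_
      FQ := ?_
      FC1 := ?_
      FL := ?_
      FK := ?_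
      FW := ?_
      FG3 := ?_
      FT := ?_
      Fcm := ?_
      FBp := ?_
      B1_ge := one_le_pow₀ ha1
      FTS := ?_
      kBp := ?_
      kβ := ?_
      FX := ?_
      FE := ?_
      FZ := ?_
      FZg := ?_
      FGg := ?_
      FU := ?_
      FC := ?_
      F8 := ?_
      F9 := le_rfl
      F9' := ?_
      F10 := ?_
      F10' := ?_
      F11 := ?_
      F12 := ?_
      F12' := ?_ }
  · -- f_pos
    show 1 ≤ 1000 * z
    omega
  · -- f_lt
    show 1000 * z < L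
    omega
  · -- β_ge
    show 16 ≤ a ^ 32
    have h := Nm_le ha (x := 4) (y := 0) (y' := 32) (by omega) (by norm_num)
    norm_num at h
    exact h
  · -- κ0_pos
    show 0 < (8 : ℝ) ^ L / _
    positivity
  · -- Z1_ge
    show 1 ≤ a ^ (512000 * (R * z)) * (a ^ (512 * R)) ^ 2
    exact one_le_mul_of_one_le_of_one_le (one_le_pow₀ ha1) (one_le_pow₀ (one_le_pow₀ ha1))
  · -- G1_ge
    show (8 : ℝ) ≤ 2 ^ (10 * L)
    calc (8 : ℝ) = 2 ^ 3 := by norm_num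
      _ ≤ 2 ^ (10 * L) := pow_le_pow_right₀ (by norm_num) (by omega)
  · -- μ_pos
    show 1 ≤ 20000 * R
    omega
  · show 1 ≤ 300 * z
    omega
  · show 1 ≤ 400000 * R
    omega
  · show 1 ≤ 70000 * R * z
    rw [mul_assoc]
    omega
  · -- D_ge
    show 320 * (20000 * R) + 1 ≤ 2 ^ 23 * R
    omega
  · -- DK
    show 2 ^ 23 * R * (20000 * R) * (300 * z) ≤ 2 ^ 46 * R ^ 2 * z
    calc 2 ^ 23 * R * (20000 * R) * (300 * z) = 2 ^ 23 * 6000000 * (R ^ 2 * z) := by ring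
      _ ≤ 2 ^ 46 * (R ^ 2 * z) := Nat.mul_le_mul_right _ (by norm_num)
      _ = _ := by ring
  · -- wK
    show 70000 * R * z + R * (1000 * z) ≤ 2 ^ 46 * R ^ 2 * z
    calc 70000 * R * z + R * (1000 * z) = 71000 * (R * z) := by ring
      _ ≤ 2 ^ 46 * (R ^ 2 * z) := by
        apply Nat.mul_le_mul (by norm_num)
        apply Nat.mul_le_mul_right
        nlinarith
      _ = _ := by ring
  · -- klK
    show 400000 * R * (R * (1000 * z)) ≤ 2 ^ 46 * R ^ 2 * z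
    calc 400000 * R * (R * (1000 * z)) = 400000000 * (R ^ 2 * z) := by ring
      _ ≤ 2 ^ 46 * (R ^ 2 * z) := Nat.mul_le_mul_right _ (by norm_num)
      _ = _ := by ring
  · -- s_ge
    show 4 * L + 2 * (2 ^ 46 * R ^ 2 * z) ≤ 8 * L
    omega
  · -- tB.l_ge
    exact one_le_pow₀ ha1
  · -- tB.mB
    show 2 * ((2 ^ 46 * R ^ 2 * z : ℕ) : ℝ) * ((R * (1000 * z) : ℕ) : ℝ) * a ^ 16 ≤ (a ^ 32) ^ 2
    refine le_trans (mul_le_mul_of_nonneg_right hKw (by positivity)) ?_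
    rw [← pow_mul]
    exact Nm_le ha (by omega) (by norm_num)
  · -- tB.pay
    show (a ^ (512 * R)) ^ 100 * (2 * ((2 ^ 46 * R ^ 2 * z : ℕ) : ℝ) *
      ((R * (1000 * z) : ℕ) : ℝ) * a ^ 16) ^ (20000 * R) ≤ ((a ^ 32) ^ 2) ^ (20000 * R)
    have e : (2 * ((2 ^ 46 * R ^ 2 * z : ℕ) : ℝ) * ((R * (1000 * z) : ℕ) : ℝ) * a ^ 16) ^
        (20000 * R) ≤ (2 ^ (2 * L) * a ^ 16) ^ (20000 * R) :=
      pow_le_pow_left₀ (by positivity) (mul_le_mul_of_nonneg_right hKw (by positivity)) _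
    refine le_trans (mul_le_mul_of_nonneg_left e (by positivity)) ?_
    calc (a ^ (512 * R)) ^ 100 * (2 ^ (2 * L) * a ^ 16) ^ (20000 * R) =
          2 ^ (40000 * (L * R)) * a ^ (371200 * R) := by ring
      _ ≤ a ^ (1280000 * R) := Nm_leR ha (j := 400 * R) (by
          have : 100 * L * (400 * R) = 40000 * (L * R) := by ring
          omega) (by omega)
      _ = _ := by ring
  · -- tB.t2
    show (1 / p) ^ L * (a ^ 32) ^ 2 * (a ^ (512 * R)) ^ 1200 ≤ (a ^ 16) ^ (2 * (400000 * R))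
    calc (1 / p) ^ L * (a ^ 32) ^ 2 * (a ^ (512 * R)) ^ 1200 ≤
          a ^ (2048 * R) * (a ^ 32) ^ 2 * (a ^ (512 * R)) ^ 1200 := by gcongr
      _ = a ^ (616448 * R + 64) := by ring
      _ ≤ a ^ (12800000 * R) := pow_le_pow_right₀ ha1 (by omega)
      _ = _ := by ring
  · -- tB1.mB
    show 2 * ((2 ^ 46 * R ^ 2 * z : ℕ) : ℝ) * ((R * (1000 * z) : ℕ) : ℝ) * a ≤ a ^ 4
    refine le_trans (mul_le_mul_of_nonneg_right hKw (by positivity)) ?_
    have h := Nm_le ha (x := 2 * L) (y := 1) (y' := 4) (by omega) (by norm_num)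
    rw [pow_one] at h
    exact h
  · -- tB1.pay
    show (a ^ (512 * R)) ^ 100 * (2 * ((2 ^ 46 * R ^ 2 * z : ℕ) : ℝ) *
      ((R * (1000 * z) : ℕ) : ℝ) * a) ^ (20000 * R) ≤ (a ^ 4) ^ (20000 * R)
    have e : (2 * ((2 ^ 46 * R ^ 2 * z : ℕ) : ℝ) * ((R * (1000 * z) : ℕ) : ℝ) * a) ^
        (20000 * R) ≤ (2 ^ (2 * L) * a) ^ (20000 * R) :=
      pow_le_pow_left₀ (by positivity) (mul_le_mul_of_nonneg_right hKw (by positivity)) _
    refine le_trans (mul_le_mul_of_nonneg_left e (by positivity)) ?_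
    calc (a ^ (512 * R)) ^ 100 * (2 ^ (2 * L) * a) ^ (20000 * R) =
          2 ^ (40000 * (L * R)) * a ^ (71200 * R) := by ring
      _ ≤ a ^ (80000 * R) := Nm_leR ha (j := 400 * R) (by
          have : 100 * L * (400 * R) = 40000 * (L * R) := by ring
          omega) (by omega)
      _ = _ := by ring
  · -- tB1.t2
    show (1 / p) ^ L * a ^ 4 * (a ^ (512 * R)) ^ 1200 ≤ a ^ (2 * (400000 * R))
    calc (1 / p) ^ L * a ^ 4 * (a ^ (512 * R)) ^ 1200 ≤
          a ^ (2048 * R) * a ^ 4 * (a ^ (512 * R)) ^ 1200 := by gcongr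
      _ = a ^ (616448 * R + 4) := by ring
      _ ≤ a ^ (800000 * R) := pow_le_pow_right₀ ha1 (by omega)
      _ = _ := by ring
  · -- pt0
    show (1 / p) ^ (300 * z) ≤ a ^ (512 * R)
    have h1p : 1 ≤ 1 / p := by
      rw [le_div_iff₀ hp0, one_mul]
      exact hp1
    have e1 : ((1 / p) ^ (300 * z)) ^ 4 ≤ (a ^ (512 * R)) ^ 4 := by
      calc ((1 / p) ^ (300 * z)) ^ 4 = (1 / p) ^ (1200 * z) := by rw [← pow_mul]; congr 1; ring
        _ ≤ (1 / p) ^ L := pow_le_pow_right₀ h1p (by omega)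
        _ ≤ a ^ (2048 * R) := hq
        _ = _ := by ring
    exact le_of_pow_le_pow_left₀ (by norm_num) (by positivity) e1
  · -- No_le
    show (N : ℝ) ≤ (a ^ (512 * R)) ^ 450
    refine hNr0.trans (le_of_eq ?_)
    ring
  · -- Cb_nn
    show 0 ≤ a ^ (128000 * R)
    positivity
  · -- FCb
    show 8 * a ^ (128000 * R) * (1 / p) ^ (8 * L) * (a ^ (512 * R)) ^ 100 ≤ n
    have e1 : (1 / p) ^ (8 * L) ≤ a ^ (16384 * R) := by
      calc (1 / p) ^ (8 * L) = ((1 / p) ^ L) ^ 8 := by rw [← pow_mul]; congr 1; ring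
        _ ≤ (a ^ (2048 * R)) ^ 8 := pow_le_pow_left₀ (by positivity) hq 8
        _ = _ := by ring
    calc 8 * a ^ (128000 * R) * (1 / p) ^ (8 * L) * (a ^ (512 * R)) ^ 100 ≤
          8 * a ^ (128000 * R) * a ^ (16384 * R) * (a ^ (512 * R)) ^ 100 := by gcongr
      _ = 2 ^ 3 * a ^ (195584 * R) := by ring
      _ ≤ a ^ (204800 * R) := Nm_le ha (by omega) (by omega)
      _ = n := han
  · -- μwK
    show 20000 * R * (R * (1000 * z)) ≤ 2 ^ 46 * R ^ 2 * z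
    calc 20000 * R * (R * (1000 * z)) = 20000000 * (R ^ 2 * z) := by ring
      _ ≤ 2 ^ 46 * (R ^ 2 * z) := Nat.mul_le_mul_right _ (by norm_num)
      _ = _ := by ring
  · -- FQ
    show (2 ^ (R * (1000 * z) + 300 * z + 1) *
      (8 * ((R * (1000 * z) : ℕ) : ℝ) * L) ^ (300 * z)) ^ (8 * (20000 * R) * (2 ^ 23 * R)) ≤
        a ^ (512 * R)
    rw [mul_pow]
    have e1 : ((2 : ℝ) ^ (R * (1000 * z) + 300 * z + 1)) ^ (8 * (20000 * R) * (2 ^ 23 * R)) ≤
        a ^ (128 * R) := by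
      rw [← pow_mul]
      have h := Nm_leR ha (x := (R * (1000 * z) + 300 * z + 1) * (8 * (20000 * R) * (2 ^ 23 * R)))
        (y := 0) (y' := 128 * R) (j := 128 * R) (by
          have e2 : R * (1000 * z) + 300 * z + 1 ≤ 1301 * (R * z) := by
            have e3 : R * (1000 * z) = 1000 * (R * z) := by ring
            have e4 : z ≤ R * z := Nat.le_mul_of_pos_left _ hR
            omega
          calc (R * (1000 * z) + 300 * z + 1) * (8 * (20000 * R) * (2 ^ 23 * R)) ≤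
                1301 * (R * z) * (8 * (20000 * R) * (2 ^ 23 * R)) := Nat.mul_le_mul_right _ e2
            _ = 1301 * 160000 * 2 ^ 23 * (R ^ 2 * z) * R := by ring
            _ ≤ 12800 * 2 ^ 49 * (R ^ 2 * z) * R := by
                apply Nat.mul_le_mul_right
                apply Nat.mul_le_mul_right
                norm_num
            _ = 12800 * R * (2 ^ 49 * R ^ 2 * z) := by ring
            _ ≤ 12800 * R * L := Nat.mul_le_mul_left _ hL
            _ = 100 * L * (128 * R) := by ring) (by omega)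
      rw [pow_zero, mul_one] at h
      exact h
    have e2 : ((8 * ((R * (1000 * z) : ℕ) : ℝ) * L) ^ (300 * z)) ^
        (8 * (20000 * R) * (2 ^ 23 * R)) ≤ a ^ (256 * R) := by
      rw [← pow_mul]
      calc (8 * ((R * (1000 * z) : ℕ) : ℝ) * L) ^ (300 * z * (8 * (20000 * R) * (2 ^ 23 * R))) ≤
            ((L : ℝ) ^ 2) ^ (300 * z * (8 * (20000 * R) * (2 ^ 23 * R))) :=
              pow_le_pow_left₀ (by positivity) he0L _
        _ = (L : ℝ) ^ (96000000 * 2 ^ 23 * (R ^ 2 * z)) := by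
            rw [← pow_mul]
            congr 1
            ring
        _ ≤ (L : ℝ) ^ (2 ^ 42 * (R * z) * (256 * R)) := by
            apply pow_le_pow_right₀ hLr
            calc 96000000 * 2 ^ 23 * (R ^ 2 * z) ≤ 2 ^ 42 * 256 * (R ^ 2 * z) :=
                  Nat.mul_le_mul_right _ (by norm_num)
              _ = 2 ^ 42 * (R * z) * (256 * R) := by ring
        _ = ((L : ℝ) ^ (2 ^ 42 * (R * z))) ^ (256 * R) := by rw [← pow_mul]
        _ ≤ a ^ (256 * R) := pow_le_pow_left₀ (by positivity) haQ _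
    calc _ ≤ a ^ (128 * R) * a ^ (256 * R) := mul_le_mul e1 e2 (by positivity) (by positivity)
      _ = a ^ (384 * R) := by ring
      _ ≤ a ^ (512 * R) := pow_le_pow_right₀ ha1 (by omega)
  · -- FC1
    show 64 * (2 : ℝ) ^ L * 4 ^ (2 ^ 46 * R ^ 2 * z) ≤ a ^ (512 * R)
    rw [Nm_pow4]
    have h := Nm_le ha (x := 6 + L + 2 * (2 ^ 46 * R ^ 2 * z)) (y := 0) (y' := 512 * R)
      (by omega) (by omega)
    calc 64 * (2 : ℝ) ^ L * 2 ^ (2 * (2 ^ 46 * R ^ 2 * z)) =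
          2 ^ (6 + L + 2 * (2 ^ 46 * R ^ 2 * z)) * a ^ 0 := by
            rw [pow_add, pow_add]
            norm_num
      _ ≤ a ^ (512 * R) := h
  · -- FL
    show (2 : ℝ) ^ (100 * L) ≤ a ^ (512 * R)
    exact ha.trans (by simpa using pow_le_pow_right₀ ha1 (show 1 ≤ 512 * R by omega))
  · -- FK
    show (2 * (8 * ((R * (1000 * z) : ℕ) : ℝ) * L)) ^ (120 * (400000 * R)) *
      2 ^ (2 * (400000 * R) * (R * (1000 * z))) * 64 ^ L ≤ a ^ (512 * R)
    have e1 : (2 * (8 * ((R * (1000 * z) : ℕ) : ℝ) * L)) ^ (120 * (400000 * R)) ≤ a := by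
      have e2 : 2 * (8 * ((R * (1000 * z) : ℕ) : ℝ) * L) ≤ (L : ℝ) ^ 3 := by
        have e3 : (2 : ℝ) ≤ L := by
          have : 2 ≤ L := by omega
          exact_mod_cast this
        calc 2 * (8 * ((R * (1000 * z) : ℕ) : ℝ) * L) ≤ L * (L : ℝ) ^ 2 :=
              mul_le_mul e3 he0L (by positivity) (by positivity)
          _ = (L : ℝ) ^ 3 := by ring
      calc (2 * (8 * ((R * (1000 * z) : ℕ) : ℝ) * L)) ^ (120 * (400000 * R)) ≤
            ((L : ℝ) ^ 3) ^ (120 * (400000 * R)) := pow_le_pow_left₀ (by positivity) e2 _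
        _ = (L : ℝ) ^ (144000000 * R) := by
            rw [← pow_mul]
            congr 1
            ring
        _ ≤ (L : ℝ) ^ (2 ^ 42 * (R * z)) := by
            apply pow_le_pow_right₀ hLr
            have : R ≤ R * z := Nat.le_mul_of_pos_right _ hz
            omega
        _ ≤ a := haQ
    have e5 : (2 : ℝ) ^ (2 * (400000 * R) * (R * (1000 * z))) * 64 ^ L ≤ a := by
      rw [Nm_pow64, ← pow_add]
      refine (pow_le_pow_right₀ (by norm_num) ?_).trans ha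
      have e6 : 2 * (400000 * R) * (R * (1000 * z)) = 800000000 * (R ^ 2 * z) := by ring
      have e7 : 2 ^ 49 * (R ^ 2 * z) ≤ L := by
        refine le_trans (le_of_eq ?_) hL
        ring
      omega
    calc _ = (2 * (8 * ((R * (1000 * z) : ℕ) : ℝ) * L)) ^ (120 * (400000 * R)) *
          (2 ^ (2 * (400000 * R) * (R * (1000 * z))) * 64 ^ L) := by ring
      _ ≤ a * a := mul_le_mul e1 e5 (by positivity) (by positivity)
      _ = a ^ 2 := by ring
      _ ≤ a ^ (512 * R) := pow_le_pow_right₀ ha1 (by omega)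
  · -- FW
    show (2 : ℝ) ^ (R * (1000 * z) * L) ≤ (a ^ (512 * R)) ^ (300 * z)
    have h := Nm_leR ha (x := R * (1000 * z) * L) (y := 0) (y' := 153600 * (R * z))
      (j := 10 * (R * z)) (le_of_eq (by ring)) (by omega)
    rw [pow_zero, mul_one] at h
    refine h.trans (le_of_eq ?_)
    ring
  · -- FG3
    show (2 : ℝ) ^ (10 * L) * 64 ^ (R * (1000 * z)) ≤ (a ^ (512 * R)) ^ 3
    rw [Nm_pow64, ← pow_add, ← pow_mul]
    have h := Nm_le ha (x := 10 * L + 6 * (R * (1000 * z))) (y := 0) (y' := 512 * R * 3) (by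
      have : R * (1000 * z) = 1000 * (R * z) := by ring
      omega) (by omega)
    rw [pow_zero, mul_one] at h
    exact h
  · -- FT
    show 2 ^ (40 * L) * (a ^ (512000 * (R * z)) * (a ^ (512 * R)) ^ 2) ≤
      (a ^ (512 * R)) ^ (4 * (300 * z))
    calc 2 ^ (40 * L) * (a ^ (512000 * (R * z)) * (a ^ (512 * R)) ^ 2) =
          2 ^ (40 * L) * a ^ (512000 * (R * z) + 1024 * R) := by ring
      _ ≤ a ^ (614400 * (R * z)) := Nm_le ha (by omega) (by
          have : R ≤ R * z := Nat.le_mul_of_pos_right _ hz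
          omega)
      _ = _ := by ring
  · -- Fcm
    show 8 ^ L * (a ^ (512000 * (R * z)) * (a ^ (512 * R)) ^ 2) ≤ (a ^ (512 * R)) ^ (1000 * z + 3)
    rw [Nm_pow8]
    calc 2 ^ (3 * L) * (a ^ (512000 * (R * z)) * (a ^ (512 * R)) ^ 2) =
          2 ^ (3 * L) * a ^ (512000 * (R * z) + 1024 * R) := by ring
      _ ≤ a ^ (512000 * (R * z) + 1536 * R) := Nm_le ha (by omega) (by omega)
      _ = _ := by ring
  · -- FBp
    show (((1000 * z + 3 : ℕ) : ℝ) + 1) * a ^ 4 ≤ a ^ 8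
    have e : ((1000 * z + 3 : ℕ) : ℝ) + 1 ≤ 2 ^ (1000 * z + 4) := by
      have := Nm_nat (1000 * z + 4)
      push_cast at this ⊢
      linarith
    refine le_trans (mul_le_mul_of_nonneg_right e (by positivity)) ?_
    exact Nm_le ha (by omega) (by norm_num)
  · -- FTS
    show 2 ^ (L + R * (1000 * z) + 5) * ((R * (1000 * z) : ℕ) : ℝ) ^ 2 * a ^ 16 * (a ^ 8) ^ 2 ≤
      (a ^ 32) ^ 2
    have e1 : ((R * (1000 * z) : ℕ) : ℝ) ≤ 2 ^ L := by
      have : R * (1000 * z) ≤ L := by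
        have : R * (1000 * z) = 1000 * (R * z) := by ring
        omega
      exact le_trans (by exact_mod_cast this) (Nm_nat L)
    calc 2 ^ (L + R * (1000 * z) + 5) * ((R * (1000 * z) : ℕ) : ℝ) ^ 2 * a ^ 16 * (a ^ 8) ^ 2 ≤
          2 ^ (L + R * (1000 * z) + 5) * (2 ^ L) ^ 2 * a ^ 16 * (a ^ 8) ^ 2 := by gcongr
      _ = 2 ^ (3 * L + 1000 * (R * z) + 5) * a ^ 32 := by ring
      _ ≤ a ^ 64 := Nm_le ha (by omega) (by norm_num)
      _ = _ := by ring
  · -- kBp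
    show (1 + 1 / a ^ 8) ^ (2 ^ 46 * R ^ 2 * z) ≤ 2
    refine Nm_exp ?_ (by positivity)
    have e1 : 2 * ((2 ^ 46 * R ^ 2 * z : ℕ) : ℝ) ≤ 2 ^ L := by
      have : 2 * (2 ^ 46 * R ^ 2 * z) ≤ L := by omega
      exact le_trans (by exact_mod_cast this) (Nm_nat L)
    refine e1.trans ?_
    have h := Nm_le ha (x := L) (y := 0) (y' := 8) (by omega) (by norm_num)
    rw [pow_zero, mul_one] at h
    exact h
  · -- kβ
    show (1 + 1 / (a ^ 32) ^ 2) ^ (2 ^ 46 * R ^ 2 * z) ≤ 2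
    refine Nm_exp ?_ (by positivity)
    have e1 : 2 * ((2 ^ 46 * R ^ 2 * z : ℕ) : ℝ) ≤ 2 ^ L := by
      have : 2 * (2 ^ 46 * R ^ 2 * z) ≤ L := by omega
      exact le_trans (by exact_mod_cast this) (Nm_nat L)
    refine e1.trans ?_
    rw [← pow_mul]
    have h := Nm_le ha (x := L) (y := 0) (y' := 32 * 2) (by omega) (by norm_num)
    rw [pow_zero, mul_one] at h
    exact h
  · -- FX
    show 2 ^ (40 * L) * (a ^ (512000 * (R * z)) * (a ^ (512 * R)) ^ 2) ≤ (a ^ 8) ^ (70000 * R * z)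
    calc 2 ^ (40 * L) * (a ^ (512000 * (R * z)) * (a ^ (512 * R)) ^ 2) =
          2 ^ (40 * L) * a ^ (512000 * (R * z) + 1024 * R) := by ring
      _ ≤ a ^ (560000 * (R * z)) := Nm_le ha (by omega) (by
          have : R ≤ R * z := Nat.le_mul_of_pos_right _ hz
          omega)
      _ = _ := by ring
  · -- FE
    show 100 * ((R * (1000 * z) : ℕ) : ℝ) * 2 ^ (40 * L) * (a ^ 32) ^ (8 * (R * (1000 * z))) ≤
      8 ^ L / ((N : ℝ) ^ z * a ^ (512 * R)) * (a ^ 32) ^ (2 * (70000 * R * z))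
    refine Nm_κ hD ?_
    have e1 : ((R * (1000 * z) : ℕ) : ℝ) ≤ 2 ^ L := by
      have : R * (1000 * z) ≤ L := by
        have : R * (1000 * z) = 1000 * (R * z) := by ring
        omega
      exact le_trans (by exact_mod_cast this) (Nm_nat L)
    calc 100 * ((R * (1000 * z) : ℕ) : ℝ) * 2 ^ (40 * L) * (a ^ 32) ^ (8 * (R * (1000 * z))) *
          ((N : ℝ) ^ z * a ^ (512 * R)) ≤
          2 ^ 7 * 2 ^ L * 2 ^ (40 * L) * (a ^ 32) ^ (8 * (R * (1000 * z))) *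
          (a ^ (256000 * (R * z)) * a ^ (512 * R)) := by
            gcongr
            norm_num
      _ = 2 ^ (41 * L + 7) * a ^ (512000 * (R * z) + 512 * R) := by ring
      _ ≤ a ^ (4480000 * (R * z)) := Nm_le ha (by omega) (by
          have : R ≤ R * z := Nat.le_mul_of_pos_right _ hz
          omega)
      _ = 1 * (a ^ 32) ^ (2 * (70000 * R * z)) := by ring
      _ ≤ 8 ^ L * (a ^ 32) ^ (2 * (70000 * R * z)) :=
          mul_le_mul_of_nonneg_right h8L (by positivity)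
  · -- FZ
    show 2 * (a ^ 32) ^ (8 * (R * (1000 * z))) ≤
      8 ^ L / ((N : ℝ) ^ z * a ^ (512 * R)) * (a ^ (512000 * (R * z)) * (a ^ (512 * R)) ^ 2)
    refine Nm_κ hD ?_
    calc 2 * (a ^ 32) ^ (8 * (R * (1000 * z))) * ((N : ℝ) ^ z * a ^ (512 * R)) ≤
          2 * (a ^ 32) ^ (8 * (R * (1000 * z))) * (a ^ (256000 * (R * z)) * a ^ (512 * R)) := by
            gcongr
      _ = 2 ^ 1 * a ^ (512000 * (R * z) + 512 * R) := by ring
      _ ≤ a ^ (512000 * (R * z) + 1024 * R) := Nm_le ha (by omega) (by omega)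
      _ = 1 * (a ^ (512000 * (R * z)) * (a ^ (512 * R)) ^ 2) := by ring
      _ ≤ 8 ^ L * (a ^ (512000 * (R * z)) * (a ^ (512 * R)) ^ 2) :=
          mul_le_mul_of_nonneg_right h8L (by positivity)
  · -- FZg
    show 2 * (a ^ 32) ^ (8 * (R * (1000 * z))) * 8 ^ (R * (1000 * z)) ≤
      8 ^ L / ((N : ℝ) ^ z * a ^ (512 * R)) * (a ^ (512000 * (R * z)) * a ^ (512 * R))
    refine Nm_κ hD ?_
    rw [Nm_pow8, Nm_pow8]
    calc 2 * (a ^ 32) ^ (8 * (R * (1000 * z))) * 2 ^ (3 * (R * (1000 * z))) *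
          ((N : ℝ) ^ z * a ^ (512 * R)) ≤
          2 * (a ^ 32) ^ (8 * (R * (1000 * z))) * 2 ^ (3 * (R * (1000 * z))) *
          (a ^ (256000 * (R * z)) * a ^ (512 * R)) := by gcongr
      _ = 2 ^ (1 + 3000 * (R * z)) * a ^ (512000 * (R * z) + 512 * R) := by ring
      _ ≤ 2 ^ (3 * L) * a ^ (512000 * (R * z) + 512 * R) := by
          refine mul_le_mul_of_nonneg_right ?_ (by positivity)
          exact pow_le_pow_right₀ (by norm_num) (by omega)
      _ = _ := by ring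
  · -- FGg
    show (8 : ℝ) * 64 ^ (R * (1000 * z)) ≤ 2 ^ L
    rw [Nm_pow64]
    calc (8 : ℝ) * 2 ^ (6 * (R * (1000 * z))) = 2 ^ (3 + 6000 * (R * z)) := by ring
      _ ≤ 2 ^ L := pow_le_pow_right₀ (by norm_num) (by omega)
  · -- FU
    show 8 ^ L * (a ^ 32) ^ (8 * (R * (1000 * z))) ≤
      8 ^ L / ((N : ℝ) ^ z * a ^ (512 * R)) * (a ^ (512 * R)) ^ (1000 * z + 1)
    refine Nm_κ hD ?_
    calc 8 ^ L * (a ^ 32) ^ (8 * (R * (1000 * z))) * ((N : ℝ) ^ z * a ^ (512 * R)) ≤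
          8 ^ L * (a ^ 32) ^ (8 * (R * (1000 * z))) *
            (a ^ (256000 * (R * z)) * a ^ (512 * R)) := by gcongr
      _ = _ := by ring
  · -- FC
    show (a ^ 32) ^ (8 * (R * (1000 * z))) ≤
      8 ^ L / ((N : ℝ) ^ z * a ^ (512 * R)) * (n * p ^ (4 * L)) ^ (L - 1000 * z)
    refine Nm_κ hD ?_
    refine le_trans ?_ (mul_le_mul h8L (pow_le_pow_left₀ (by positivity) h4 _)
      (by positivity) (by positivity))
    rw [one_mul, ← pow_mul (a := a) (m := 196608 * R)]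
    calc (a ^ 32) ^ (8 * (R * (1000 * z))) * ((N : ℝ) ^ z * a ^ (512 * R)) ≤
          (a ^ 32) ^ (8 * (R * (1000 * z))) * (a ^ (256000 * (R * z)) * a ^ (512 * R)) := by gcongr
      _ = a ^ (512000 * (R * z) + 512 * R) := by ring
      _ ≤ a ^ (196608 * R * (L - 1000 * z)) := by
          apply pow_le_pow_right₀ ha1
          have e1 : 3 * z + 1 ≤ L - 1000 * z := by omega
          calc 512000 * (R * z) + 512 * R ≤ 196608 * R * (3 * z + 1) := by
                have : 196608 * R * (3 * z + 1) = 589824 * (R * z) + 196608 * R := by ring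
                omega
            _ ≤ _ := Nat.mul_le_mul_left _ e1
  · -- F8
    show 2 * (R : ℝ) * 16 ^ L * 2 ^ (10 * L) * a ^ (512 * R) * (a ^ 32) ^ 2 ≤ n * p ^ (5 * L)
    refine le_trans ?_ h5
    have e1 : (R : ℝ) ≤ 2 ^ L := by
      have : R ≤ L := by omega
      exact le_trans (by exact_mod_cast this) (Nm_nat L)
    rw [Nm_pow16]
    calc 2 * (R : ℝ) * 2 ^ (4 * L) * 2 ^ (10 * L) * a ^ (512 * R) * (a ^ 32) ^ 2 ≤
          2 * 2 ^ L * 2 ^ (4 * L) * 2 ^ (10 * L) * a ^ (512 * R) * (a ^ 32) ^ 2 := by gcongr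
      _ = 2 ^ (15 * L + 1) * a ^ (512 * R + 64) := by ring
      _ ≤ a ^ (194560 * R) := Nm_le ha (by omega) (by omega)
  · -- F9'
    show (2 : ℝ) ^ L * (8 * 8 ^ (1000 * z)) ^ R ≤ 2 ^ (8 * L)
    rw [Nm_pow8 (1000 * z)]
    calc (2 : ℝ) ^ L * (8 * 2 ^ (3 * (1000 * z))) ^ R =
          (2 : ℝ) ^ L * (2 ^ 3 * 2 ^ (3 * (1000 * z))) ^ R := by norm_num
      _ = 2 ^ (L + (3 + 3 * (1000 * z)) * R) := by
          rw [← pow_add, ← pow_mul, ← pow_add]
      _ ≤ 2 ^ (8 * L) := by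
          apply pow_le_pow_right₀ (by norm_num)
          have : (3 + 3 * (1000 * z)) * R = 3 * R + 3000 * (R * z) := by ring
          omega
  · -- F10
    show a ^ (512000 * (R * z)) * a ^ (512 * R) * 8 ^ R * 2 ^ r * 8 ^ R ≤
      a ^ (512000 * (R * z)) * (a ^ (512 * R)) ^ 2
    rw [Nm_pow8]
    calc a ^ (512000 * (R * z)) * a ^ (512 * R) * 2 ^ (3 * R) * 2 ^ r * 2 ^ (3 * R) =
          a ^ (512000 * (R * z)) * (2 ^ (6 * R + r) * a ^ (512 * R)) := by ring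
      _ ≤ a ^ (512000 * (R * z)) * a ^ (1024 * R) := by
          refine mul_le_mul_of_nonneg_left ?_ (by positivity)
          exact Nm_le ha (by omega) (by omega)
      _ = _ := by ring
  · -- F10'
    show (2 : ℝ) ^ (8 * L) * 2 ^ r * (8 * 8 ^ (1000 * z)) ^ R ≤ 2 ^ (10 * L)
    rw [Nm_pow8 (1000 * z)]
    calc (2 : ℝ) ^ (8 * L) * 2 ^ r * (8 * 2 ^ (3 * (1000 * z))) ^ R =
          (2 : ℝ) ^ (8 * L) * 2 ^ r * (2 ^ 3 * 2 ^ (3 * (1000 * z))) ^ R := by norm_num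
      _ = 2 ^ (8 * L + r + (3 + 3 * (1000 * z)) * R) := by
          rw [← pow_add, ← pow_add, ← pow_mul, ← pow_add]
      _ ≤ 2 ^ (10 * L) := by
          apply pow_le_pow_right₀ (by norm_num)
          have : (3 + 3 * (1000 * z)) * R = 3 * R + 3000 * (R * z) := by ring
          omega
  · -- F11
    show ((Nat.sqrt n + 1 : ℕ) : ℝ) * 2 ^ (10 * L) * a ^ (512 * R) ≤ n * p ^ (4 * L)
    refine le_trans ?_ h4
    have e1 : ((Nat.sqrt n : ℕ) : ℝ) ≤ a ^ (102400 * R) := by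
      have e2 : ((Nat.sqrt n : ℕ) : ℝ) ^ 2 ≤ (a ^ (102400 * R)) ^ 2 := by
        have e3 : Nat.sqrt n ^ 2 ≤ n := by rw [pow_two]; exact Nat.sqrt_le n
        have e4 : ((Nat.sqrt n : ℕ) : ℝ) ^ 2 ≤ n := by exact_mod_cast e3
        refine e4.trans (le_of_eq ?_)
        rw [← han]
        ring
      exact le_of_pow_le_pow_left₀ (by norm_num) (by positivity) e2
    have e2 : ((Nat.sqrt n + 1 : ℕ) : ℝ) ≤ 2 * a ^ (102400 * R) := by
      push_cast
      have : 1 ≤ a ^ (102400 * R) := one_le_pow₀ ha1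
      linarith
    calc ((Nat.sqrt n + 1 : ℕ) : ℝ) * 2 ^ (10 * L) * a ^ (512 * R) ≤
          2 * a ^ (102400 * R) * 2 ^ (10 * L) * a ^ (512 * R) := by gcongr
      _ = 2 ^ (10 * L + 1) * a ^ (102912 * R) := by ring
      _ ≤ a ^ (196608 * R) := Nm_le ha (by omega) (by omega)
  · -- F12
    show (2 : ℝ) * 8 ^ L ≤ a ^ (512000 * (R * z)) * a ^ (512 * R) * 8 ^ R
    rw [Nm_pow8]
    have e1 : (1 : ℝ) ≤ a ^ (512000 * (R * z)) := one_le_pow₀ ha1
    have e2 : (1 : ℝ) ≤ 8 ^ R := one_le_pow₀ (by norm_num)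
    have h := Nm_le ha (x := 3 * L + 1) (y := 0) (y' := 512 * R) (by omega) (by omega)
    calc (2 : ℝ) * 2 ^ (3 * L) = 2 ^ (3 * L + 1) * a ^ 0 := by ring
      _ ≤ a ^ (512 * R) := h
      _ = 1 * a ^ (512 * R) * 1 := by ring
      _ ≤ _ := by gcongr
  · -- F12'
    show (2 : ℝ) * 64 ^ L ≤ 2 ^ (8 * L)
    rw [Nm_pow64]
    calc (2 : ℝ) * 2 ^ (6 * L) = 2 ^ (6 * L + 1) := by ring
      _ ≤ 2 ^ (8 * L) := pow_le_pow_right₀ (by norm_num) (by omega)

/-- The lines are few. -/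
theorem numl_S (a : ℝ) (R L z n N r : ℕ) (p : ℝ) (hR : 1 ≤ R) (hz : 1 ≤ z)
    (hL : 2 ^ 49 * R ^ 2 * z ≤ L) (hN0 : 0 < N) (ha : 2 ^ (100 * L) ≤ a) :
    2 * 8 ^ L * ((N : ℝ) ^ z * (numl a R L z n N r p).κ0) ≤ 1 := by
  obtain ⟨s1, s2, s3⟩ := Nm_size R L z hR hz hL
  have ha1 : 1 ≤ a := (one_le_pow₀ (by norm_num)).trans ha
  have ha0 : 0 < a := by linarith
  have hNr : (0 : ℝ) < N := by exact_mod_cast hN0
  show 2 * 8 ^ L * ((N : ℝ) ^ z * (8 ^ L / ((N : ℝ) ^ z * a ^ (512 * R)))) ≤ 1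
  have h2 : (2 : ℝ) ^ (6 * L + 1) * a ^ 0 ≤ a ^ (512 * R) :=
    Nm_le ha (by omega) (by omega)
  have e : 2 * 8 ^ L * ((N : ℝ) ^ z * (8 ^ L / ((N : ℝ) ^ z * a ^ (512 * R)))) =
      (2 ^ (6 * L + 1) * a ^ 0) / a ^ (512 * R) := by
    rw [Nm_pow8]
    field_simp
    ring
  rw [e, div_le_one (by positivity)]
  exact h2

end Pool.Agent.H49.RD
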