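/-
The base theorem (helper49): `k` at most a small multiple of `log N`. Uses noref, rnd_ok5, numl_ok,
nqd, ref_of.
-/
import Pool.Agent.H49.RD.Dsc
import Pool.Agent.H49.RD.Nm
import Pool.Agent.H49.RD.Nq
import Pool.Agent.H49.RD.Rf
import Pool.Agent.H49.RD.Rx4
import Pool.Agent.H49.SV.Sup

set_option autoImplicit false
set_option linter.unusedSectionVars false

open Finset

namespace Pool.Agent.H49.RD

open Pool.Agent.H49.RG (Vb GroupRefutation)

theorem Ref.mono {ν : Type} {G : SimpleGraph ν} {R L : ℕ}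
    {V : Fin R → Fin L → Finset ν} {r r' S : ℕ} {F : ℕ → Fin R → (Fin L → ν) → ℝ} {t : ℕ → ℝ}
    (h : Ref G V r S F t) (hr : r ≤ r') : Ref G V r' S F t where
  step := fun s hs => by
    obtain ⟨prem, h1, h2⟩ := h.step s hs
    exact ⟨prem, h1.trans hr, h2⟩
  last := h.last

theorem base : H49.SV.Base (2 ^ 70) (2 ^ 52) (2 ^ 76) 3 := by
  intro c z k N A p hc hz hk hA hN hN2 hp
  obtain ⟨h1, h2, h3, h4, h5, h6, h7, a, ha, haQ, han⟩ :=
    nqd c z k N A (128 * c) (k / (128 * c) + 1) (N / (128 * c * (k / (128 * c) + 1))) p hc hz hk hA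
      hN hN2 hp rfl rfl rfl
  set R : ℕ := 128 * c with hR
  set L : ℕ := k / R + 1 with hL
  set n : ℕ := N / (R * L) with hn
  have hR1 : 1 ≤ R := by omega
  have hN0 : 0 < N := lt_of_lt_of_le (by positivity) hN
  have hp0 : (0 : ℝ) < p := lt_of_lt_of_le (by positivity) hp
  have hOK := numl_ok a R L z n N (k / R) p hR1 hz h3 (by omega) hp0 p.2.2 h4 hN0 h5 ha haQ han
  have hS := numl_S a R L z n N (k / R) p hR1 hz h3 hN0 ha
  have hpr := rnd_ok5 (R := R) (L := L) (N := N) (numl a R L z n N (k / R) p) hOK p rfl h1 rfl rfl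
    h4 ?_ ?_ h6 h7
  · refine le_trans ?_ hpr
    refine MeasureTheory.measureReal_mono ?_
    rintro G ⟨S, r, hSN, hr, f, hf⟩ hG
    obtain ⟨F, t, hT⟩ := ref_of (L := L) hR1 h2 G
      (fun (a' : Fin R) (j : Fin L) => Vb R (numl a R L z n N (k / R) p).n N a' j) hf
    have hrk : r ≤ k / R := (Nat.le_div_iff_mul_le (by omega)).2 (by rw [mul_comm]; exact hr)
    refine noref hG hOK S ?_ F t (hT.mono hrk)
    refine le_trans ?_ hS
    have hκ := hOK.κ0_pos
    have hSR : (S : ℝ) ≤ (N : ℝ) ^ z := by exact_mod_cast hSN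
    gcongr
  · show (n : ℝ) ^ 5 ≤ (a ^ (128000 * R)) ^ 8
    rw [← han]
    refine le_of_eq ?_
    ring
  · show Real.sqrt n ≤ ((Nat.sqrt n + 1 : ℕ) : ℝ)
    rw [Real.sqrt_le_left (by positivity)]
    have := Nat.lt_succ_sqrt n
    have h8 : n ≤ (Nat.sqrt n + 1) ^ 2 := by
      rw [pow_two]
      exact this.le
    exact_mod_cast h8

end Pool.Agent.H49.RD
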