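/-
The main lemma on cells, by induction; new bad points.
-/
import Pool.Agent.H49.RD.C2
import Pool.Agent.H49.RG.Hlf

set_option autoImplicit false
set_option linter.unusedSectionVars false

open Finset

namespace Pool.Agent.H49.RD

open Pool.Agent.H49.RG (Cl Ad Eqn nbr cell pts mem_cell mem_nbr mem_pts cell_sub cell_mono
  cell_anti cell_cell cell_eq half)

variable {ν : Type} [Fintype ν] [DecidableEq ν] {L : ℕ}

theorem lemG_aux {P : Pl ν L} {c : Num} {R : ℕ} (h : P.OK c) (hc : c.OK R L)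
    (F : (Fin L → ν) → ℝ) (N : ℕ) : ∀ (C : Finset (Fin L → ν)) (U : Finset (Fin L)) (α : Fin L → ν)
    (Y : Finset ν), C.card + (c.f + 1 - U.card) + (c.w + 1 - Y.card) ≤ N → P.Pos C U α Y →
      P.Clm c F C U α Y := by
  induction N with
  | zero =>
    intro C U α Y hN hP
    by_cases hY : c.w < Y.card
    · exact clm_Y hc hY
    · exact clm_U h hc hP (not_lt.1 hY) (by omega)
  | succ N ih =>
    intro C U α Y hN hP
    by_cases hY : c.w < Y.card
    · exact clm_Y hc hY
    rw [not_lt] at hY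
    by_cases hU : c.f < U.card
    · exact clm_U h hc hP hY hU
    rw [not_lt] at hU
    by_cases hd : P.den c C U α Y ≤ c.κ U.card Y.card * c.Tot L
    · exact clm_small hc hd
    rw [not_le] at hd
    have hC2 := two_le hc hP hY hU hd
    obtain ⟨A, hAC, hA2, hA3, hAF⟩ := half F C hC2
    have hAP : P.Pos A U α Y := ⟨hAC.trans hP.sub, hP.out⟩
    by_cases hreg : ∀ (U' : Finset (Fin L)) (α' : Fin L → ν), U ⊆ U' → Eqn U α' α →
      P.den c A U' α' Y ≤ 8 * c.h ^ (U'.card - U.card) * P.den c A U α Y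
    · refine case2 h hc hP hY hU hd A hAC hA2 hA3 hAF hreg (ih A U α Y (by omega) hAP) ?_
      intro C' hC' γ hγ1 hγ2 hP'
      have h1 : (Y ∪ γ).card = Y.card + γ.card := card_union_of_disjoint hγ2.symm
      exact ih C' U α (Y ∪ γ) (by omega) hP'
    · push Not at hreg
      obtain ⟨U1, α1, hU1, hα1, hlt⟩ := hreg
      have hW := Num.W_pos hc.p_pos hc.n_pos L U.card Y.card
      have hdenA : P.den c C U α Y ≤ 2 * P.den c A U α Y := by
        rw [P.den_of_sub c hP.sub, P.den_of_sub c hAP.sub]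
        have h1 : (C.card : ℝ) ≤ 2 * A.card := by exact_mod_cast hA2
        calc (C.card : ℝ) * c.W L U.card Y.card ≤ (2 * A.card) * c.W L U.card Y.card :=
              mul_le_mul_of_nonneg_right h1 hW.le
          _ = _ := by ring
      have hh0 : 0 < c.h := lt_of_lt_of_le one_pos hc.h_ge
      have hA0 : 0 ≤ P.den c A U α Y := P.den_nonneg hc.p_pos hc.n_pos _ _ _ _
      have hbig : 4 * c.h ^ (U1.card - U.card) * P.den c C U α Y <
          P.den c (cell P.G C U1 α1 Y) U1 α1 Y := by
        have e1 : P.den c (cell P.G C U1 α1 Y) U1 α1 Y = P.den c C U1 α1 Y := by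
          unfold Pl.den
          rw [cell_cell C (Subset.refl U1) (fun j _ => rfl) (Subset.refl Y)]
        rw [e1]
        have e2 := P.den_mono hc.p_pos hc.n_pos hAC U1 α1 Y
        calc 4 * c.h ^ (U1.card - U.card) * P.den c C U α Y
            ≤ 4 * c.h ^ (U1.card - U.card) * (2 * P.den c A U α Y) :=
              mul_le_mul_of_nonneg_left hdenA (by positivity)
          _ = 8 * c.h ^ (U1.card - U.card) * P.den c A U α Y := by ring
          _ < P.den c A U1 α1 Y := hlt
          _ ≤ _ := e2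
      have hC1C : cell P.G C U1 α1 Y ⊆ C := cell_sub _ _ _ _ _
      have hC1pos : 0 < (cell P.G C U1 α1 Y).card := by
        rw [Nat.pos_iff_ne_zero]
        intro h0
        rw [card_eq_zero] at h0
        rw [h0] at hbig
        have e1 : P.den c (∅ : Finset (Fin L → ν)) U1 α1 Y = 0 := by
          unfold Pl.den
          have : cell P.G (∅ : Finset (Fin L → ν)) U1 α1 Y = ∅ := by
            rw [← subset_empty]
            exact cell_sub _ _ _ _ _
          rw [this]
          simp
        rw [e1] at hbig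
        have e2 := P.den_nonneg hc.p_pos hc.n_pos C U α Y
        have e3 : 0 ≤ 4 * c.h ^ (U1.card - U.card) * P.den c C U α Y := by
          positivity
        linarith
      have hC1le := card_le_card hC1C
      have hsd : (C \ cell P.G C U1 α1 Y).card = C.card - (cell P.G C U1 α1 Y).card :=
        card_sdiff_of_subset hC1C
      have hdrop : U.card < U1.card := by
        by_contra hcon
        have h3 : U1 = U := (eq_of_subset_of_card_le hU1 (not_lt.1 hcon)).symm
        subst h3
        simp only [Nat.sub_self, pow_zero, mul_one] at hlt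
        rw [den_congr P c A hα1 Y] at hlt
        linarith
      refine case1 hc hP U1 α1 hU1 hbig ?_ ?_
      · refine ih _ _ _ _ ?_ ⟨?_, hP.out⟩
        · omega
        · have e1 : C ⊆ pts P.G P.V := hP.sub.trans (cell_sub _ _ _ _ _)
          exact cell_mono e1 _ _ _
      · refine ih _ _ _ _ ?_ ⟨sdiff_subset.trans hP.sub, hP.out⟩
        rw [hsd]
        omega

theorem lemG {P : Pl ν L} {c : Num} {R : ℕ} (h : P.OK c) (hc : c.OK R L)
    (F : (Fin L → ν) → ℝ) (C : Finset (Fin L → ν)) (U : Finset (Fin L)) (α : Fin L → ν)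
    (Y : Finset ν) (hP : P.Pos C U α Y) : P.Clm c F C U α Y :=
  lemG_aux h hc F _ C U α Y le_rfl hP

theorem bad_mono {P : Pl ν L} {c : Num} (F : ℕ → (Fin L → ν) → ℝ) {s s' : ℕ} (h : s ≤ s') :
    P.bad c F s ⊆ P.bad c F s' := by
  induction s', h using Nat.le_induction with
  | base => exact Subset.refl _
  | succ s' _ ih => exact ih.trans subset_union_left

theorem bad_sub_pts {P : Pl ν L} {c : Num} (F : ℕ → (Fin L → ν) → ℝ) (s : ℕ) :
    P.bad c F s ⊆ pts P.G P.V := by
  induction s with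
  | zero => exact empty_subset _
  | succ s ih => exact union_subset ih (Bad_sub.trans sdiff_subset)

theorem bad_new {P : Pl ν L} {c : Num} {R : ℕ} (h : P.OK c) (hc : c.OK R L)
    (F : ℕ → (Fin L → ν) → ℝ) (s : ℕ) :
    ((P.Bad c (F s) (pts P.G P.V \ P.bad c F s) ∅).card : ℝ) ≤ c.κ0 * c.Tot L := by
  obtain ⟨N, hN⟩ : ∃ N, N = P.Bad c (F s) (pts P.G P.V \ P.bad c F s) ∅ := ⟨_, rfl⟩
  rw [← hN]
  have hsub : N ⊆ pts P.G P.V := by
    rw [hN]
    exact Bad_sub.trans sdiff_subset
  have hTot := Num.Tot_pos hc.p_pos hc.n_pos L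
  rcases N.eq_empty_or_nonempty with h0 | ⟨x0, hx0⟩
  · rw [h0]
    simp only [card_empty, Nat.cast_zero]
    exact mul_nonneg hc.κ0_pos.le hTot.le
  have hcell : N ⊆ cell P.G (pts P.G P.V) ∅ x0 ∅ := by
    intro x hx
    refine mem_cell.2 ⟨hsub hx, fun j hj => absurd hj (notMem_empty j), fun j _ v hv => ?_⟩
    simp at hv
  have hP : P.Pos N ∅ x0 ∅ := ⟨hcell, by simp⟩
  have h1 := lemG h hc (F s) N ∅ x0 ∅ hP
  rw [clm_iff hc hcell] at h1
  have hBad : P.Bad c (F s) N ∅ = N := by
    refine Subset.antisymm Bad_sub fun x hx => ?_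
    have hx' := hx
    rw [hN] at hx'
    exact Bad_of_sub hx' (by rw [hN]; exact Bad_sub) hx
  rw [hBad] at h1
  have hW : c.W L (∅ : Finset (Fin L)).card (∅ : Finset ν).card = 1 := by
    unfold Num.W
    simp
  have hκ : c.κ (∅ : Finset (Fin L)).card (∅ : Finset ν).card = c.κ0 := by
    unfold Num.κ
    simp
  rw [hW, hκ, div_one, sq] at h1
  have hpos : (0 : ℝ) < N.card := by exact_mod_cast card_pos.2 ⟨x0, hx0⟩
  exact le_of_mul_le_mul_right h1 hpos

theorem bad_card {P : Pl ν L} {c : Num} {R : ℕ} (h : P.OK c) (hc : c.OK R L)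
    (F : ℕ → (Fin L → ν) → ℝ) (s : ℕ) :
    ((P.bad c F s).card : ℝ) ≤ s * (c.κ0 * c.Tot L) := by
  induction s with
  | zero => simp [Pl.bad]
  | succ s ih =>
    have h1 : ((P.bad c F (s + 1)).card : ℝ) ≤ (P.bad c F s).card +
        (P.Bad c (F s) (pts P.G P.V \ P.bad c F s) ∅).card := by
      exact_mod_cast card_union_le _ _
    have h2 := bad_new h hc F s
    push_cast
    linarith

theorem good_of_not_bad {P : Pl ν L} {c : Num} (F : ℕ → (Fin L → ν) → ℝ) (s : ℕ)
    {x : Fin L → ν} (hx : x ∈ pts P.G P.V) (hb : x ∉ P.bad c F (s + 1)) (y : Finset ν)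
    (hy : y ⊆ P.Out) (hyc : y.card ≤ c.w) (hxy : Ad P.G univ x y) :
    P.Good c (F s) (pts P.G P.V \ P.bad c F s) x y := by
  by_contra hcon
  apply hb
  have h1 : x ∉ P.bad c F s := fun h2 => hb (bad_mono F (Nat.le_succ s) h2)
  exact mem_union_right _ (Pl.mem_Bad.2 ⟨mem_sdiff.2 ⟨hx, h1⟩, y, empty_subset _, hy, hyc, hxy, hcon⟩)

end Pool.Agent.H49.RD
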