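/-
Letters of one player are typical for a spread set of another player.
-/
import Pool.Agent.H49.RD.Mp

set_option autoImplicit false
set_option linter.unusedSectionVars false

open Finset

namespace Pool.Agent.H49.RD

open Pool.Agent.H49.RG (Cl Ad Eqn nbr cell pts mem_cell mem_nbr mem_pts cell_sub cell_mono
  cell_anti cell_cell cell_eq)

variable {ν : Type} [Fintype ν] [DecidableEq ν] {R L : ℕ}

/-- Points have their letters in the blocks. -/
lemma Typ_mem {G : SimpleGraph ν} {V : Fin R → Fin L → Finset ν} {c : Num} {a : Fin R}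
    {Ca : Finset (Fin L → ν)} {Ua : Finset (Fin L)} {αa : Fin L → ν} {Φa : Finset ν} {Z G' : ℝ}
    (ha : (pl G V a).Sp c Ca Ua αa Φa Z G') {x : Fin L → ν} (hx : x ∈ Ca) (j : Fin L) :
    x j ∈ V a j :=
  (mem_pts.1 (mem_cell.1 (ha.sub hx)).1).1 j

/-- Letters determine their rows. -/
lemma Typ_row {G : SimpleGraph ν} {V : Fin R → Fin L → Finset ν} {c : Num} {a : Fin R}
    (h : (pl G V a).OK c) {x y : Fin L → ν} (hx : ∀ j, x j ∈ V a j) (hy : ∀ j, y j ∈ V a j)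
    {i j : Fin L} (hij : x i = y j) : i = j := by
  by_contra hne
  have h1 : Disjoint (V a i) (V a j) := h.dis i j hne
  exact (Finset.disjoint_left.1 h1 (hx i)) (hij ▸ hy j)

/-- The letters in `M` are as many as the rows. -/
lemma Typ_card {G : SimpleGraph ν} {V : Fin R → Fin L → Finset ν} {c : Num} {a : Fin R}
    (h : (pl G V a).OK c) {x : Fin L → ν} (hx : ∀ j, x j ∈ V a j) (M : Finset (Fin L)) :
    (lets M x).card = M.card :=
  card_image_of_injective _ fun _ _ hij => Typ_row h hx hx hij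

/-- The arithmetic of the rate. -/
lemma Typ_arith {c : Num} (hc : c.OK R L) (u m : ℕ) (hm : 1 ≤ m) (F N O : ℝ) (hF : 0 ≤ F)
    (h1 : F * (c.n * c.p ^ (4 * L)) ^ m ≤ c.G1 * c.h ^ m * N)
    (h2 : N ≤ 2 * (R : ℝ) * 16 ^ L * O) (hO : 0 ≤ O) :
    F * ((1 / c.p) ^ (L - u) * c.β ^ 2) ^ m ≤ O := by
  have hp := hc.p_pos
  have hβ : (16 : ℝ) ≤ c.β := hc.β_ge
  have hG : (1 : ℝ) ≤ c.G1 := by linarith [hc.G1_ge]
  have hh : (1 : ℝ) ≤ c.h := hc.h_ge
  have hR : (1 : ℝ) ≤ (R : ℝ) := by exact_mod_cast hc.R_pos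
  have hn : (0 : ℝ) < c.n := by exact_mod_cast hc.n_pos
  have h16 : (1 : ℝ) ≤ 16 ^ L := one_le_pow₀ (by norm_num)
  set D : ℝ := 2 * (R : ℝ) * 16 ^ L * c.G1 with hD
  have hD1 : 1 ≤ D := by
    have e1 : (1 : ℝ) ≤ 2 * (R : ℝ) := by linarith
    have e2 : (1 : ℝ) ≤ 2 * (R : ℝ) * 16 ^ L := one_le_mul_of_one_le_of_one_le e1 h16
    exact one_le_mul_of_one_le_of_one_le e2 hG
  have hD0 : 0 < D := by linarith
  have hh0 : 0 < c.h := by linarith
  set r : ℝ := (1 / c.p) ^ (L - u) * c.β ^ 2 with hr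
  set r' : ℝ := (1 / c.p) ^ L * c.β ^ 2 with hr'
  have hp1 : 1 ≤ 1 / c.p := by
    rw [le_div_iff₀ hp, one_mul]
    exact hc.p_le
  have hr0 : 0 ≤ r := by positivity
  have hrr : r ≤ r' := by
    refine mul_le_mul_of_nonneg_right ?_ (by positivity)
    exact pow_le_pow_right₀ hp1 (by omega)
  have hr0' : 0 ≤ r' := by positivity
  have hkey : D * c.h * r' ≤ c.n * c.p ^ (4 * L) := by
    have h8 := hc.F8
    have e1 : c.n * c.p ^ (5 * L) = (c.n * c.p ^ (4 * L)) * c.p ^ L := by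
      rw [mul_assoc, ← pow_add]
      congr 2
      ring
    have e2 : 2 * (R : ℝ) * 16 ^ L * c.G1 * c.h * c.β ^ 2 = (D * c.h * r') * c.p ^ L := by
      rw [hr', hD, one_div, inv_pow]
      have : c.p ^ L ≠ 0 := pow_ne_zero _ hp.ne'
      field_simp
    rw [e1, e2] at h8
    exact le_of_mul_le_mul_right h8 (pow_pos hp _)
  have hpowm : D * c.h ^ m * r' ^ m ≤ (c.n * c.p ^ (4 * L)) ^ m := by
    have e1 : D ≤ D ^ m := le_self_pow₀ hD1 (by omega)
    calc D * c.h ^ m * r' ^ m ≤ D ^ m * c.h ^ m * r' ^ m := by gcongr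
      _ = (D * c.h * r') ^ m := by rw [mul_pow (D * c.h) r' m, mul_pow D c.h m]
      _ ≤ _ := by
        refine pow_le_pow_left₀ (by positivity) hkey m
  have hfin : (F * r' ^ m) * (D * c.h ^ m) ≤ O * (D * c.h ^ m) := by
    calc (F * r' ^ m) * (D * c.h ^ m) = F * (D * c.h ^ m * r' ^ m) := by ring
      _ ≤ F * (c.n * c.p ^ (4 * L)) ^ m := mul_le_mul_of_nonneg_left hpowm hF
      _ ≤ c.G1 * c.h ^ m * N := h1
      _ ≤ c.G1 * c.h ^ m * (2 * (R : ℝ) * 16 ^ L * O) :=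
        mul_le_mul_of_nonneg_left h2 (by positivity)
      _ = O * (D * c.h ^ m) := by rw [hD]; ring
  have hle : F * r' ^ m ≤ O := le_of_mul_le_mul_right hfin (by positivity)
  refine le_trans ?_ hle
  exact mul_le_mul_of_nonneg_left (pow_le_pow_left₀ hr0 hrr m) hF

/-- The codegrees of the letter sets. -/
lemma Typ_rate {G : SimpleGraph ν} {V : Fin R → Fin L → Finset ν} {c : Num}
    (hc : c.OK R L) (a : Fin R) (h : (pl G V a).OK c)
    (Ca : Finset (Fin L → ν)) (Ua : Finset (Fin L)) (αa : Fin L → ν) (Φa Φb : Finset ν)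
    (ha : (pl G V a).Sp c Ca Ua αa Φa c.Z1 c.G1)
    (M : Finset (Fin L)) (hold : ∀ j ∈ M, j ∈ Ua → αa j ∈ Φb)
    (O : Finset (Fin L → ν)) (hO : O ⊆ Ca) (u : ℕ)
    (hN : (Ca.card : ℝ) ≤ 2 * (R : ℝ) * 16 ^ L * O.card) (γ : Finset ν) :
    ((O.filter (fun o => γ ⊆ lets M o \ Φb)).card : ℝ) *
      ((1 / c.p) ^ (L - u) * c.β ^ 2) ^ γ.card ≤ O.card := by
  rcases Finset.eq_empty_or_nonempty γ with hγ | hγ
  · rw [hγ, card_empty, pow_zero, mul_one]
    exact_mod_cast card_le_card (filter_subset _ _)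
  rcases Finset.eq_empty_or_nonempty (O.filter (fun o => γ ⊆ lets M o \ Φb)) with hE | hE
  · rw [hE, card_empty, Nat.cast_zero, zero_mul]
    exact Nat.cast_nonneg _
  obtain ⟨x0, hx0⟩ := hE
  rw [mem_filter] at hx0
  obtain ⟨hx0O, hx0γ⟩ := hx0
  have hmem : ∀ x ∈ O, ∀ j, x j ∈ V a j := fun x hx j => Typ_mem ha (hO hx) j
  have hcell : ∀ x ∈ O, Eqn Ua x αa ∧ Ad G univ x Φa := fun x hx =>
    (mem_cell.1 (ha.sub (hO hx))).2
  have hinj : Function.Injective x0 := fun i j hij =>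
    Typ_row h (hmem x0 hx0O) (hmem x0 hx0O) hij
  set J : Finset (Fin L) := M.filter (fun j => x0 j ∈ γ) with hJ
  have hJγ : J.image x0 = γ := by
    ext v
    rw [mem_image]
    constructor
    · rintro ⟨j, hj, rfl⟩
      exact (mem_filter.1 hj).2
    · intro hv
      obtain ⟨j, hj, e⟩ := mem_lets.1 (mem_sdiff.1 (hx0γ hv)).1
      exact ⟨j, mem_filter.2 ⟨hj, e ▸ hv⟩, e⟩
  have hJc : J.card = γ.card := by
    rw [← hJγ, card_image_of_injective _ hinj]
  have hJU : Disjoint Ua J := by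
    rw [Finset.disjoint_left]
    intro j hjU hjJ
    obtain ⟨hjM, hjγ⟩ := mem_filter.1 hjJ
    have e := (hcell x0 hx0O).1 j hjU
    have h1 := hold j hjM hjU
    rw [← e] at h1
    exact (mem_sdiff.1 (hx0γ hjγ)).2 h1
  have hsub : O.filter (fun o => γ ⊆ lets M o \ Φb) ⊆ cell G Ca (Ua ∪ J) x0 Φa := by
    intro x hx
    rw [mem_filter] at hx
    obtain ⟨hxO, hxγ⟩ := hx
    refine mem_cell.2 ⟨hO hxO, ?_, (hcell x hxO).2⟩
    intro j hj
    rcases mem_union.1 hj with hj | hj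
    · rw [(hcell x hxO).1 j hj, (hcell x0 hx0O).1 j hj]
    · obtain ⟨_, hjγ⟩ := mem_filter.1 hj
      obtain ⟨i, _, e⟩ := mem_lets.1 (mem_sdiff.1 (hxγ hjγ)).1
      have e2 : i = j := Typ_row h (hmem x hxO) (hmem x0 hx0O) e
      rw [← e2]
      rw [e2] at e
      rw [e2]
      exact e
  have hcu : (Ua ∪ J).card = Ua.card + γ.card := by
    rw [card_union_of_disjoint hJU, hJc]
  have hup := ha.upper (Ua ∪ J) x0 subset_union_left (hcell x0 hx0O).1
  rw [hcu, Nat.add_sub_cancel_left, (pl G V a).den_of_sub c ha.sub] at hup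
  unfold Pl.den at hup
  rw [hcu] at hup
  have hL : Ua.card + γ.card ≤ L := by
    rw [← hcu]
    exact (card_le_univ _).trans (by rw [Fintype.card_fin])
  have hW := W_le hc Ua.card γ.card Φa.card hL ha.card_le
  have hW0 : 0 < c.W L Ua.card Φa.card := Num.W_pos hc.p_pos hc.n_pos _ _ _
  have hn : (0 : ℝ) < c.n := by exact_mod_cast hc.n_pos
  have hX0 : 0 ≤ c.n * c.p ^ (4 * L) := by
    have := hc.p_pos
    positivity
  have hF : ((O.filter (fun o => γ ⊆ lets M o \ Φb)).card : ℝ) ≤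
      (cell G Ca (Ua ∪ J) x0 Φa).card := by exact_mod_cast card_le_card hsub
  refine Typ_arith hc u γ.card (card_pos.2 hγ) _ (Ca.card : ℝ) O.card (Nat.cast_nonneg _) ?_ hN
    (Nat.cast_nonneg _)
  have hstep : (((O.filter (fun o => γ ⊆ lets M o \ Φb)).card : ℝ) *
      (c.n * c.p ^ (4 * L)) ^ γ.card) * c.W L Ua.card Φa.card ≤
      (c.G1 * c.h ^ γ.card * Ca.card) * c.W L Ua.card Φa.card := by
    calc (((O.filter (fun o => γ ⊆ lets M o \ Φb)).card : ℝ) *
        (c.n * c.p ^ (4 * L)) ^ γ.card) * c.W L Ua.card Φa.card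
        = ((O.filter (fun o => γ ⊆ lets M o \ Φb)).card : ℝ) *
          (c.W L Ua.card Φa.card * (c.n * c.p ^ (4 * L)) ^ γ.card) := by ring
      _ ≤ ((O.filter (fun o => γ ⊆ lets M o \ Φb)).card : ℝ) *
          c.W L (Ua.card + γ.card) Φa.card :=
        mul_le_mul_of_nonneg_left hW (Nat.cast_nonneg _)
      _ ≤ (cell G Ca (Ua ∪ J) x0 Φa).card * c.W L (Ua.card + γ.card) Φa.card :=
        mul_le_mul_of_nonneg_right hF (Num.W_pos hc.p_pos hc.n_pos _ _ _).le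
      _ ≤ c.G1 * c.h ^ γ.card * (Ca.card * c.W L Ua.card Φa.card) := hup
      _ = _ := by ring
  exact le_of_mul_le_mul_right hstep hW0

open Classical in
theorem typ {G : SimpleGraph ν} {V : Fin R → Fin L → Finset ν} {c : Num}
    (h : ∀ a, (pl G V a).OK c) (hc : c.OK R L) (a b : Fin R) (hab : a ≠ b)
    (Ca Cb : Finset (Fin L → ν)) (Ua Ub : Finset (Fin L)) (αa αb : Fin L → ν) (Φa Φb : Finset ν)
    (Z K : ℝ) (hZ0 : 0 ≤ Z) (hZ : Z ≤ c.Z1) (hK1 : 1 ≤ K) (hK : K ≤ c.G1)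
    (ha : (pl G V a).Sp c Ca Ua αa Φa c.Z1 c.G1)
    (hb : (pl G V b).Sp c Cb Ub αb Φb Z K) (hΦ : Φb.card + c.w ≤ 3 * L)
    (M : Finset (Fin L)) (hM : M.card ≤ c.f) (hold : ∀ j ∈ M, j ∈ Ua → αa j ∈ Φb)
    (had : ∀ x ∈ Ca, Ad G Ub αb (lets M x)) :
    2 * 2 ^ L * (R : ℝ) * (Ca.filter (fun x => ¬ ∃ X ⊆ Cb,
      (pl G V b).Sp c X Ub αb (Φb ∪ lets M x) (Z * 8) (K * (8 * 8 ^ c.f)))).card ≤ Ca.card := by
  set Bad := Ca.filter (fun x => ¬ ∃ X ⊆ Cb,
      (pl G V b).Sp c X Ub αb (Φb ∪ lets M x) (Z * 8) (K * (8 * 8 ^ c.f))) with hBad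
  by_contra hcon
  rw [not_le] at hcon
  have hBadCa : Bad ⊆ Ca := filter_subset _ _
  -- pigeonhole
  have hcardP : ((Φb.powerset).card : ℝ) ≤ 8 ^ L := by
    rw [card_powerset]
    push_cast
    have e : (8 : ℝ) ^ L = 2 ^ (3 * L) := by
      rw [pow_mul]
      norm_num
    rw [e]
    exact pow_le_pow_right₀ (by norm_num) hb.card_le
  have hPpos : (0 : ℝ) < ((Φb.powerset).card : ℝ) := by
    rw [card_powerset]
    positivity
  obtain ⟨Q, hQ, hQc⟩ := Finset.exists_le_card_fiber_of_nsmul_le_card_of_maps_to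
    (s := Bad) (t := Φb.powerset) (f := fun x => lets M x ∩ Φb)
    (b := (Bad.card : ℝ) / (Φb.powerset).card)
    (fun x _ => mem_powerset.2 inter_subset_right) ⟨∅, empty_mem_powerset _⟩
    (by rw [nsmul_eq_mul, mul_div_cancel₀ _ hPpos.ne'])
  set O := Bad.filter (fun x => lets M x ∩ Φb = Q) with hO
  have hOB : O ⊆ Bad := filter_subset _ _
  have hOCa : O ⊆ Ca := hOB.trans hBadCa
  have hBO : (Bad.card : ℝ) ≤ 8 ^ L * O.card := by
    rw [div_le_iff₀ hPpos] at hQc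
    calc (Bad.card : ℝ) ≤ O.card * (Φb.powerset).card := hQc
      _ ≤ O.card * 8 ^ L := mul_le_mul_of_nonneg_left hcardP (Nat.cast_nonneg _)
      _ = _ := by ring
  have hN : (Ca.card : ℝ) < 2 * (R : ℝ) * 16 ^ L * O.card := by
    refine lt_of_lt_of_le hcon ?_
    calc 2 * 2 ^ L * (R : ℝ) * Bad.card ≤ 2 * 2 ^ L * (R : ℝ) * (8 ^ L * O.card) :=
          mul_le_mul_of_nonneg_left hBO (by positivity)
      _ = 2 * (R : ℝ) * (2 ^ L * 8 ^ L) * O.card := by ring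
      _ = _ := by
        rw [← mul_pow]
        norm_num
  have hOne : O.Nonempty := by
    rw [Finset.nonempty_iff_ne_empty]
    intro he
    rw [he, card_empty, Nat.cast_zero, mul_zero] at hN
    exact absurd hN (not_lt.2 (Nat.cast_nonneg _))
  have hmem : ∀ x ∈ O, ∀ j, x j ∈ V a j := fun x hx j => Typ_mem ha (hOCa hx) j
  have hbad : ∀ x ∈ O, ¬ ∃ X ⊆ Cb,
      (pl G V b).Sp c X Ub αb (Φb ∪ lets M x) (Z * 8) (K * (8 * 8 ^ c.f)) :=
    fun x hx => (mem_filter.1 (hOB hx)).2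
  have hyc : ∀ x ∈ O, (lets M x \ Φb).card = M.card - Q.card := by
    intro x hx
    have h1 : lets M x ∩ Φb = Q := (mem_filter.1 hx).2
    have h2 := card_sdiff_add_card_inter (lets M x) Φb
    rw [h1, Typ_card (h a) (hmem x hx) M] at h2
    omega
  have h8f : (1 : ℝ) ≤ 8 ^ c.f := one_le_pow₀ (by norm_num)
  have hg1 : 1 ≤ M.card - Q.card := by
    by_contra hg
    obtain ⟨x, hx⟩ := hOne
    have h1 : (lets M x \ Φb).card = 0 := by
      rw [hyc x hx]
      omega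
    have h2 : lets M x ⊆ Φb := sdiff_eq_empty_iff_subset.1 (card_eq_zero.1 h1)
    refine hbad x hx ⟨Cb, Subset.refl _, ?_⟩
    rw [union_eq_left.2 h2]
    exact hb.mono hc (by linarith) (by nlinarith)
  have hfw : c.f ≤ c.w := by
    rw [hc.w_eq]
    exact Nat.le_mul_of_pos_left _ hc.R_pos
  have hgw : M.card - Q.card ≤ c.w := by omega
  have hfam : (pl G V b).Fam c (c.β ^ 2) Ub αb (Φb ∪ ∅) O (fun x => lets M x \ Φb)
      (M.card - Q.card) := by
    refine ⟨hg1, hgw, ?_, ?_, hyc, ?_, ?_⟩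
    · intro x hx v hv
      obtain ⟨j, _, e⟩ := mem_lets.1 (mem_sdiff.1 hv).1
      exact mem_pl_Out.2 ⟨a, hab, j, e ▸ hmem x hx j⟩
    · intro x _
      rw [union_empty]
      exact sdiff_disjoint
    · intro x hx
      exact (had x (hOCa hx)).mono (Subset.refl _) sdiff_subset
    · intro γ
      exact Typ_rate hc a (h a) Ca Ua αa Φa Φb ha M hold O hOCa Ub.card hN.le γ
  have hb1 : (pl G V b).Sp c Cb Ub αb Φb c.Z1 K := hb.mono hc hZ le_rfl
  obtain ⟨T, hT⟩ := tow_ex hc hb1 (by linarith)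
  obtain ⟨o, ho, hden⟩ := tsh (h b) hc hb1 hK1 hK hT hΦ ∅ (empty_subset _)
    (disjoint_empty_left _) (by rw [card_empty, pow_zero, one_mul, union_empty, hT.zero]) O hOne
    (fun x => lets M x \ Φb) hfam (by rw [card_empty]; omega)
  simp only [empty_union, union_empty] at hden
  rw [hT.zero] at hden
  have e : Φb ∪ (lets M o \ Φb) = Φb ∪ lets M o := union_sdiff_self_eq_union
  have hcc : (lets M o \ Φb).card ≤ c.f := by
    rw [hyc o ho]
    omega
  have hout : lets M o \ Φb ⊆ (pl G V b).Out := hfam.out o ho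
  have hsp := Pl.Tow.sp hc hb hT hZ0 hK1 (by norm_num : (1 : ℝ) ≤ 8) (lets M o \ Φb) hout
    sdiff_disjoint (by
      have := card_union_le Φb (lets M o \ Φb)
      omega) hden
  rw [e] at hsp
  refine hbad o ho ⟨T (lets M o \ Φb), (hT.sub _).trans (cell_sub _ _ _ _ _), hsp.mono hc
    le_rfl ?_⟩
  refine mul_le_mul_of_nonneg_left (mul_le_mul_of_nonneg_left ?_ (by norm_num)) (by linarith)
  exact pow_le_pow_right₀ (by norm_num) hcc

end Pool.Agent.H49.RD
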